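import Mathlib

/-!
Arithmetic of the order-7 triangular tiling: the cubic field `ℚ(2cos(2π/7))`, integral functions on
its three real places, the vertex lattice and the gap lemma.
-/

set_option autoImplicit false

namespace Pool.Agent.H116.T37

/-- The three real roots of `t³+t²-2t-1`. -/
abbrev Root := {μ : ℝ // μ ^ 3 + μ ^ 2 - 2 * μ - 1 = 0}

lemma lam_root : (2 * Real.cos (2 * Real.pi / 7)) ^ 3 + (2 * Real.cos (2 * Real.pi / 7)) ^ 2
    - 2 * (2 * Real.cos (2 * Real.pi / 7)) - 1 = 0 := by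
  set c := Real.cos (2 * Real.pi / 7) with hc
  have hpi := Real.pi_pos
  have h3 : Real.cos (3 * (2 * Real.pi / 7)) = 4 * c ^ 3 - 3 * c := Real.cos_three_mul _
  have h2 : Real.cos (2 * (2 * Real.pi / 7)) = 2 * c ^ 2 - 1 := Real.cos_two_mul _
  have h4 : Real.cos (2 * (2 * (2 * Real.pi / 7))) = 2 * (2 * c ^ 2 - 1) ^ 2 - 1 := by
    rw [Real.cos_two_mul, h2]
  have h5 : Real.cos (3 * (2 * Real.pi / 7)) = Real.cos (2 * (2 * (2 * Real.pi / 7))) := by
    rw [← Real.cos_two_pi_sub (3 * (2 * Real.pi / 7))]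
    congr 1
    ring
  have h1 : c ≠ 1 := by
    intro h
    have := (Real.cos_eq_one_iff_of_lt_of_lt (x := 2 * Real.pi / 7) (by linarith) (by linarith)).mp
      (by rw [← hc]; exact h)
    linarith
  have h6 : (c - 1) * ((2 * c) ^ 3 + (2 * c) ^ 2 - 2 * (2 * c) - 1) = 0 := by
    rw [h3, h4] at h5
    linear_combination -h5
  rcases mul_eq_zero.mp h6 with h | h
  · exact absurd (by linarith) h1
  · exact h

/-- The real place of interest. -/
noncomputable def lam : Root := ⟨2 * Real.cos (2 * Real.pi / 7), lam_root⟩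

lemma lam_gt_one : 1 < (lam : ℝ) := by
  have hpi := Real.pi_pos
  have h : Real.cos (Real.pi / 3) < Real.cos (2 * Real.pi / 7) :=
    Real.cos_lt_cos_of_nonneg_of_le_pi (by positivity) (by linarith) (by linarith)
  rw [Real.cos_pi_div_three] at h
  show 1 < 2 * Real.cos (2 * Real.pi / 7)
  linarith

lemma lam_lo : 1.2469 < (lam : ℝ) := by
  have h1 := lam_gt_one
  have h := lam.2
  by_contra hc
  push Not at hc
  have : ((lam : ℝ) - 1.2469) * ((lam : ℝ) ^ 2 + 1.2469 * lam + 1.2469 ^ 2 + lam + 1.2469 - 2) ≤ 0 := by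
    apply mul_nonpos_of_nonpos_of_nonneg
    · linarith
    · nlinarith
  nlinarith

lemma lam_hi : (lam : ℝ) < 1.2470 := by
  have h1 := lam_gt_one
  have h := lam.2
  by_contra hc
  push Not at hc
  have : 0 ≤ ((lam : ℝ) - 1.2470) * ((lam : ℝ) ^ 2 + 1.2470 * lam + 1.2470 ^ 2 + lam + 1.2470 - 2) := by
    apply mul_nonneg
    · linarith
    · nlinarith
  nlinarith

lemma exists_root (a b : ℝ) (hab : a ≤ b)
    (h : (0 : ℝ) ∈ Set.uIcc (a ^ 3 + a ^ 2 - 2 * a - 1) (b ^ 3 + b ^ 2 - 2 * b - 1)) :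
    ∃ μ : Root, a ≤ (μ : ℝ) ∧ (μ : ℝ) ≤ b := by
  have hcont : ContinuousOn (fun t : ℝ => t ^ 3 + t ^ 2 - 2 * t - 1) (Set.uIcc a b) := by
    fun_prop
  obtain ⟨μ, hμ, h0⟩ := intermediate_value_uIcc hcont h
  rw [Set.uIcc_of_le hab] at hμ
  exact ⟨⟨μ, h0⟩, hμ.1, hμ.2⟩

lemma exists_mu1 : ∃ μ : Root, -0.4451 ≤ (μ : ℝ) ∧ (μ : ℝ) ≤ -0.4450 := by
  apply exists_root _ _ (by norm_num)
  rw [Set.uIcc_of_ge (by norm_num)]
  constructor <;> norm_num

lemma exists_mu2 : ∃ μ : Root, -1.8020 ≤ (μ : ℝ) ∧ (μ : ℝ) ≤ -1.8019 := by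
  apply exists_root _ _ (by norm_num)
  rw [Set.uIcc_of_le (by norm_num)]
  constructor <;> norm_num

/-- Functions on the roots which come from `ℤ[λ]`. -/
def IsInt (f : Root → ℝ) : Prop := ∃ a b c : ℤ, ∀ μ : Root, f μ = a + b * (μ : ℝ) + c * (μ : ℝ) ^ 2

lemma IsInt.const (n : ℤ) : IsInt (fun _ => (n : ℝ)) := ⟨n, 0, 0, fun μ => by simp⟩

lemma IsInt.one : IsInt (fun _ => (1 : ℝ)) := ⟨1, 0, 0, fun μ => by simp⟩
lemma IsInt.zero : IsInt (fun _ => (0 : ℝ)) := ⟨0, 0, 0, fun μ => by simp⟩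

lemma IsInt.id : IsInt (fun μ => (μ : ℝ)) := ⟨0, 1, 0, fun μ => by simp⟩

lemma IsInt.add {f g : Root → ℝ} (hf : IsInt f) (hg : IsInt g) : IsInt (fun μ => f μ + g μ) := by
  obtain ⟨a, b, c, h⟩ := hf
  obtain ⟨a', b', c', h'⟩ := hg
  refine ⟨a + a', b + b', c + c', fun μ => ?_⟩
  simp only [h, h']
  push_cast
  ring

lemma IsInt.neg {f : Root → ℝ} (hf : IsInt f) : IsInt (fun μ => - f μ) := by
  obtain ⟨a, b, c, h⟩ := hf
  refine ⟨-a, -b, -c, fun μ => ?_⟩
  simp only [h]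
  push_cast
  ring

lemma IsInt.sub {f g : Root → ℝ} (hf : IsInt f) (hg : IsInt g) : IsInt (fun μ => f μ - g μ) := by
  have := hf.add hg.neg
  simpa [sub_eq_add_neg] using this

lemma IsInt.mul {f g : Root → ℝ} (hf : IsInt f) (hg : IsInt g) : IsInt (fun μ => f μ * g μ) := by
  obtain ⟨a, b, c, h⟩ := hf
  obtain ⟨a', b', c', h'⟩ := hg
  refine ⟨a * a' + (b * c' + c * b') - c * c', a * b' + b * a' + 2 * (b * c' + c * b') - c * c',
    a * c' + b * b' + c * a' - (b * c' + c * b') + 3 * (c * c'), fun μ => ?_⟩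
  have hμ := μ.2
  simp only [h, h']
  push_cast
  linear_combination ((b * c' + c * b' : ℝ) + c * c' * ((μ : ℝ) - 1)) * hμ

lemma IsInt.congr {f g : Root → ℝ} (hf : IsInt f) (h : ∀ μ, g μ = f μ) : IsInt g := by
  obtain ⟨a, b, c, h'⟩ := hf
  exact ⟨a, b, c, fun μ => by rw [h, h']⟩

/-- Small totally nonnegative integral functions vanish. -/
lemma IsInt.small {f : Root → ℝ} (hf : IsInt f) (m1 m2 : Root)
    (l1 : -0.4451 ≤ (m1 : ℝ)) (u1 : (m1 : ℝ) ≤ -0.4450)
    (l2 : -1.8020 ≤ (m2 : ℝ)) (u2 : (m2 : ℝ) ≤ -1.8019)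
    (h0 : 0 ≤ f lam) (h0' : f lam < 1) (h1 : 0 ≤ f m1) (h1' : f m1 ≤ 1.693)
    (h2 : 0 ≤ f m2) (h2' : f m2 ≤ 1.358) : f lam = 0 := by
  obtain ⟨a, b, c, h⟩ := hf
  have hl := lam_lo
  have hu := lam_hi
  set x : ℝ := (lam : ℝ) with hx
  set y : ℝ := (m1 : ℝ) with hy
  set z : ℝ := (m2 : ℝ) with hz
  have e0 := h lam
  have e1 := h m1
  have e2 := h m2
  rw [← hx] at e0
  rw [← hy] at e1
  rw [← hz] at e2
  set Y0 := f lam
  set Y1 := f m1
  set Y2 := f m2
  have key : (c : ℝ) * ((x - y) * (y - z) * (x - z)) = (y - z) * Y0 - (x - z) * Y1 + (x - y) * Y2 := by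
    rw [e0, e1, e2]; ring
  have xy1 : 1.6919 ≤ x - y := by linarith
  have xy2 : x - y ≤ 1.6922 := by linarith
  have yz1 : 1.3568 ≤ y - z := by linarith
  have yz2 : y - z ≤ 1.3570 := by linarith
  have xz1 : 3.0488 ≤ x - z := by linarith
  have xz2 : x - z ≤ 3.0490 := by linarith
  set p := x - y
  set q := y - z
  set r := x - z
  have hD : 6.9 ≤ p * q * r := by
    have h1 : 2.2955 ≤ p * q := by nlinarith
    nlinarith
  have t1 : q * Y0 ≤ 1.3570 := by nlinarith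
  have t1' : 0 ≤ q * Y0 := by positivity
  have t2 : r * Y1 ≤ 5.17 := by nlinarith
  have t2' : 0 ≤ r * Y1 := by positivity
  have t3 : p * Y2 ≤ 2.3 := by nlinarith
  have t3' : 0 ≤ p * Y2 := by positivity
  have hc0 : c = 0 := by
    have c1 : (c : ℝ) < 1 := by
      by_contra hh
      push Not at hh
      nlinarith
    have c2 : (-1 : ℝ) < c := by
      by_contra hh
      push Not at hh
      nlinarith
    have c1' : c < 1 := by exact_mod_cast c1
    have c2' : -1 < c := by exact_mod_cast c2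
    omega
  subst hc0
  have e3 : Y0 - Y2 = b * r := by rw [e0, e2]; push_cast; ring
  have hb0 : b = 0 := by
    have c1 : (b : ℝ) < 1 := by
      by_contra hh
      push Not at hh
      nlinarith
    have c2 : (-1 : ℝ) < b := by
      by_contra hh
      push Not at hh
      nlinarith
    have c1' : b < 1 := by exact_mod_cast c1
    have c2' : -1 < b := by exact_mod_cast c2
    omega
  subst hb0
  have e4 : Y0 = a := by rw [e0]; push_cast; ring
  have a1 : (a : ℝ) < 1 := by linarith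
  have a2 : (0 : ℝ) ≤ a := by linarith
  have a1' : a < 1 := by exact_mod_cast a1
  have a2' : 0 ≤ a := by exact_mod_cast a2
  have : a = 0 := by omega
  rw [e4, this]
  simp

/-- Coordinate vectors in the basis given by a triangle of the tiling. -/
abbrev W := Fin 3 → ℝ

/-- The bilinear form with Gram matrix `1` on the diagonal and `c` off the diagonal. -/
def Bf (c : ℝ) (x y : W) : ℝ :=
  (1 - c) * (x 0 * y 0 + x 1 * y 1 + x 2 * y 2) + c * (x 0 + x 1 + x 2) * (y 0 + y 1 + y 2)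

lemma Bf_comm (c : ℝ) (x y : W) : Bf c x y = Bf c y x := by unfold Bf; ring

/-- Off-diagonal entry at the place `μ`. -/
noncomputable def cc (μ : Root) : ℝ := (μ : ℝ) / (2 - μ)

lemma two_sub_ne (μ : Root) : (2 : ℝ) - μ ≠ 0 := by
  intro h
  have h1 : (μ : ℝ) = 2 := by linarith
  have := μ.2
  rw [h1] at this
  norm_num at this

lemma cc_eq (μ : Root) : cc μ * (2 - μ) = μ := by
  unfold cc
  field_simp [two_sub_ne μ]

/-- Vectors with coordinates at all places. -/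
abbrev Vec := Root → W

/-- Reflection of `z` in the side `x y`. -/
def R (x y z : Vec) : Vec := fun μ i => (μ : ℝ) * (x μ i + y μ i) - z μ i

lemma R_comm (x y z : Vec) : R x y z = R y x z := by
  funext μ i; unfold R; ring

lemma R_R (x y z : Vec) : R x y (R x y z) = z := by
  funext μ i; unfold R; ring

lemma Bf_R_left (c : ℝ) (x y z : Vec) (μ : Root) (w : W) :
    Bf c (R x y z μ) w = (μ : ℝ) * (Bf c (x μ) w + Bf c (y μ) w) - Bf c (z μ) w := by
  unfold Bf R; ring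

lemma Bf_R_right (c : ℝ) (x y z : Vec) (μ : Root) (w : W) :
    Bf c w (R x y z μ) = (μ : ℝ) * (Bf c w (x μ) + Bf c w (y μ)) - Bf c w (z μ) := by
  unfold Bf R; ring

/-- Three unit vectors with pairwise products `c`. -/
structure Tri (c : ℝ) (x y z : W) : Prop where
  xx : Bf c x x = 1
  yy : Bf c y y = 1
  zz : Bf c z z = 1
  xy : Bf c x y = c
  xz : Bf c x z = c
  yz : Bf c y z = c

/-- Integral vectors with odd coordinate sum. -/
structure Val (x : Vec) : Prop where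
  int : ∀ i, IsInt (fun μ => x μ i)
  odd : IsInt (fun μ => (x μ 0 + x μ 1 + x μ 2 - 1) / 2)

lemma Val.R {x y z : Vec} (hx : Val x) (hy : Val y) (hz : Val z) : Val (R x y z) := by
  constructor
  · intro i
    exact (IsInt.id.mul ((hx.int i).add (hy.int i))).sub (hz.int i)
  · have h := ((IsInt.id.mul ((hx.odd.add hy.odd).add IsInt.one)).sub hz.odd).sub IsInt.one
    refine h.congr fun μ => ?_
    simp only [T37.R]
    ring

/-- A triangle of the tiling. -/
structure Good (x y z : Vec) : Prop where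
  tri : ∀ μ : Root, Tri (cc μ) (x μ) (y μ) (z μ)
  vx : Val x
  vy : Val y
  vz : Val z

lemma Good.swap12 {x y z : Vec} (h : Good x y z) : Good y x z := by
  refine ⟨fun μ => ?_, h.vy, h.vx, h.vz⟩
  have t := h.tri μ
  exact ⟨t.yy, t.xx, t.zz, by rw [Bf_comm]; exact t.xy, t.yz, t.xz⟩

lemma Good.swap23 {x y z : Vec} (h : Good x y z) : Good x z y := by
  refine ⟨fun μ => ?_, h.vx, h.vz, h.vy⟩
  have t := h.tri μ
  exact ⟨t.xx, t.zz, t.yy, t.xz, t.xy, by rw [Bf_comm]; exact t.yz⟩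

lemma Good.refl {x y z : Vec} (h : Good x y z) : Good x y (T37.R x y z) := by
  refine ⟨fun μ => ?_, h.vx, h.vy, h.vx.R h.vy h.vz⟩
  have t := h.tri μ
  have hc := cc_eq μ
  refine ⟨t.xx, t.yy, ?_, t.xy, ?_, ?_⟩
  · rw [Bf_R_left, Bf_R_right, Bf_R_right, Bf_R_right, Bf_comm _ (y μ) (x μ), Bf_comm _ (z μ) (x μ),
      Bf_comm _ (z μ) (y μ), t.xx, t.yy, t.zz, t.xy, t.xz, t.yz]
    linear_combination (-2 * (μ : ℝ)) * hc
  · rw [Bf_R_right, t.xx, t.xy, t.xz]
    linear_combination -hc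
  · rw [Bf_R_right, Bf_comm _ (y μ) (x μ), t.yy, t.xy, t.yz]
    linear_combination -hc

lemma Bf_sub (c : ℝ) (x y : W) :
    Bf c (x - y) (x - y) = Bf c x x - 2 * Bf c x y + Bf c y y := by
  simp only [Bf, Pi.sub_apply]; ring

lemma Bf_add (c : ℝ) (x y : W) :
    Bf c (x + y) (x + y) = Bf c x x + 2 * Bf c x y + Bf c y y := by
  simp only [Bf, Pi.add_apply]; ring

lemma Bf_nonneg (c : ℝ) (h1 : -1 / 2 ≤ c) (h2 : c ≤ 0) (x : W) : 0 ≤ Bf c x x := by
  unfold Bf
  have h3 : (x 0 + x 1 + x 2) ^ 2 ≤ 3 * (x 0 ^ 2 + x 1 ^ 2 + x 2 ^ 2) := by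
    nlinarith [sq_nonneg (x 0 - x 1), sq_nonneg (x 0 - x 2), sq_nonneg (x 1 - x 2)]
  have h4 : 0 ≤ (1 + 2 * c) * (x 0 ^ 2 + x 1 ^ 2 + x 2 ^ 2) := by
    apply mul_nonneg (by linarith) (by positivity)
  nlinarith [mul_le_mul_of_nonpos_left h3 h2]

lemma Bf_bounds (c : ℝ) (h1 : -1 / 2 ≤ c) (h2 : c ≤ 0) (x y : W) (hx : Bf c x x = 1)
    (hy : Bf c y y = 1) : -1 ≤ Bf c x y ∧ Bf c x y ≤ 1 := by
  have e1 := Bf_nonneg c h1 h2 (x - y)
  have e2 := Bf_nonneg c h1 h2 (x + y)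
  rw [Bf_sub, hx, hy] at e1
  rw [Bf_add, hx, hy] at e2
  constructor <;> linarith

/-- The gap: two vertices are equal or at distance at least the side length. -/
theorem gap {x y : Vec} (hx : Val x) (hy : Val y) (ux : ∀ μ, Bf (cc μ) (x μ) (x μ) = 1)
    (uy : ∀ μ, Bf (cc μ) (y μ) (y μ) = 1) (h1 : 1 ≤ Bf (cc lam) (x lam) (y lam)) :
    Bf (cc lam) (x lam) (y lam) = 1 ∨ cc lam ≤ Bf (cc lam) (x lam) (y lam) := by
  obtain ⟨m1, l1, u1⟩ := exists_mu1
  obtain ⟨m2, l2, u2⟩ := exists_mu2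
  -- the integral function
  have hd : ∀ i, IsInt (fun μ => x μ i - y μ i) := fun i => (hx.int i).sub (hy.int i)
  have hs : IsInt (fun μ => (x μ 0 + x μ 1 + x μ 2 - 1) / 2 - (y μ 0 + y μ 1 + y μ 2 - 1) / 2) :=
    hx.odd.sub hy.odd
  set f : Root → ℝ := fun μ => -((4 - (μ : ℝ) * (μ : ℝ)) * (μ : ℝ) *
      (((x μ 0 + x μ 1 + x μ 2 - 1) / 2 - (y μ 0 + y μ 1 + y μ 2 - 1) / 2) *
       ((x μ 0 + x μ 1 + x μ 2 - 1) / 2 - (y μ 0 + y μ 1 + y μ 2 - 1) / 2))) -
      ((x μ 0 - y μ 0) * (x μ 1 - y μ 1) + (x μ 0 - y μ 0) * (x μ 2 - y μ 2)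
        + (x μ 1 - y μ 1) * (x μ 2 - y μ 2)) with hf
  have hfi : IsInt f := by
    have h4 : IsInt (fun _ => (4 : ℝ)) := by simpa using IsInt.const 4
    exact ((((h4.sub (IsInt.id.mul IsInt.id)).mul IsInt.id).mul (hs.mul hs)).neg).sub
      ((((hd 0).mul (hd 1)).add ((hd 0).mul (hd 2))).add ((hd 1).mul (hd 2)))
  have hfe : ∀ μ : Root, 2 * ((μ : ℝ) - 1) * f μ = (2 - μ) * (Bf (cc μ) (x μ) (y μ) - 1) := by
    intro μ
    have e1 := Bf_sub (cc μ) (x μ) (y μ)
    rw [ux, uy] at e1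
    have e2 : Bf (cc μ) (x μ) (y μ) - 1 = - Bf (cc μ) (x μ - y μ) (x μ - y μ) / 2 := by
      rw [e1]; ring
    rw [e2, hf]
    simp only [Bf, Pi.sub_apply]
    have hc := cc_eq μ
    have hμ := μ.2
    generalize cc μ = c at *
    generalize (μ : ℝ) = t at *
    generalize x μ 0 = x0
    generalize x μ 1 = x1
    generalize x μ 2 = x2
    generalize y μ 0 = y0
    generalize y μ 1 = y1
    generalize y μ 2 = y2
    have hk : (t - 1) * ((4 - t * t) * t) = 2 - t := by linear_combination (2 - t) * hμ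
    linear_combination (-(1 / 2) * (x0 - y0 + (x1 - y1) + (x2 - y2)) ^ 2) * hk +
      ((1 / 2) * ((x0 - y0 + (x1 - y1) + (x2 - y2)) ^ 2 - ((x0 - y0) ^ 2 + (x1 - y1) ^ 2 + (x2 - y2) ^ 2))) * hc
  have hpl := lam_lo
  have hpu := lam_hi
  by_cases hlt : f lam < 1
  · left
    have e0 := hfe lam
    have e1 := hfe m1
    have e2 := hfe m2
    have c1 := cc_eq m1
    have c2 := cc_eq m2
    have b1 : -1 / 2 ≤ cc m1 ∧ cc m1 ≤ 0 := by
      constructor <;> by_contra hh <;> push Not at hh <;> nlinarith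
    have b2 : -1 / 2 ≤ cc m2 ∧ cc m2 ≤ 0 := by
      constructor <;> by_contra hh <;> push Not at hh <;> nlinarith
    have B1 := Bf_bounds _ b1.1 b1.2 _ _ (ux m1) (uy m1)
    have B2 := Bf_bounds _ b2.1 b2.2 _ _ (ux m2) (uy m2)
    have hz : f lam = 0 := by
      refine hfi.small m1 m2 l1 u1 l2 u2 ?_ hlt ?_ ?_ ?_ ?_
      · by_contra hh
        push Not at hh
        nlinarith
      · by_contra hh
        push Not at hh
        nlinarith [B1.2]
      · by_contra hh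
        push Not at hh
        nlinarith [B1.1]
      · by_contra hh
        push Not at hh
        nlinarith [B2.2]
      · by_contra hh
        push Not at hh
        nlinarith [B2.1]
    rw [hz] at e0
    have : (2 - (lam : ℝ)) * (Bf (cc lam) (x lam) (y lam) - 1) = 0 := by linarith
    rcases mul_eq_zero.mp this with h | h
    · exact absurd h (two_sub_ne lam)
    · linarith
  · right
    push Not at hlt
    have e0 := hfe lam
    have c0 := cc_eq lam
    by_contra hh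
    push Not at hh
    nlinarith

end Pool.Agent.H116.T37
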