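import Mathlib
import Pool.Agent.H116.T37.Alg

/-!
The hyperbolic plane at the real place `2cos(2π/7)`.
-/

set_option autoImplicit false

namespace Pool.Agent.H116.T37

/-- `cosh` of the side length. -/
noncomputable def c0 : ℝ := cc lam

lemma c0_eq : c0 * (2 - (lam : ℝ)) = lam := cc_eq lam

lemma c0_lo : 1.655 < c0 := by
  have h := c0_eq
  have h1 := lam_lo
  have h2 := lam_hi
  by_contra hh
  push Not at hh
  nlinarith

lemma c0_hi : c0 < 1.657 := by
  have h := c0_eq
  have h1 := lam_lo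
  have h2 := lam_hi
  by_contra hh
  push Not at hh
  nlinarith

noncomputable def sS : ℝ := √(c0 ^ 2 - 1)
noncomputable def cC : ℝ := (lam : ℝ) / 2
noncomputable def sC : ℝ := √(1 - cC ^ 2)

lemma sS_sq : sS ^ 2 = c0 ^ 2 - 1 := by
  unfold sS
  rw [Real.sq_sqrt]
  nlinarith [c0_lo]

lemma sS_pos : 0 < sS := by
  unfold sS
  apply Real.sqrt_pos.mpr
  nlinarith [c0_lo]

lemma cC_bounds : 0.62 < cC ∧ cC < 0.63 := by
  unfold cC
  constructor <;> linarith [lam_lo, lam_hi]

lemma sC_sq : sC ^ 2 = 1 - cC ^ 2 := by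
  unfold sC
  rw [Real.sq_sqrt]
  nlinarith [cC_bounds.1, cC_bounds.2]

lemma sC_pos : 0 < sC := by
  unfold sC
  apply Real.sqrt_pos.mpr
  nlinarith [cC_bounds.1, cC_bounds.2]

lemma cC_eq : cC * (1 + c0) = c0 := by
  have := c0_eq
  unfold cC
  linarith

noncomputable def cA (x : W) : ℝ := x 0 + (c0 + sS) * x 1 + (c0 + sS * cC) * x 2
noncomputable def cB (x : W) : ℝ := sS * sC * x 2
noncomputable def cG (x : W) : ℝ := x 0 + (c0 - sS) * x 1 + (c0 - sS * cC) * x 2

lemma form_eq (x y : W) : (cA x * cG y + cG x * cA y) / 2 - cB x * cB y = Bf c0 x y := by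
  have hs := sS_sq
  have hS := sC_sq
  have hC := cC_eq
  unfold cA cB cG Bf
  linear_combination (-(x 1 * y 1) - cC * (x 1 * y 2 + x 2 * y 1) - x 2 * y 2) * hs
    - (c0 - 1) * (x 1 * y 2 + x 2 * y 1) * hC - sS ^ 2 * (x 2 * y 2) * hS

/-- The base point. -/
def oW : W := fun i => if i = 0 then 1 else 0

lemma Bf_oW (c : ℝ) (x : W) : Bf c oW x = x 0 + c * (x 1 + x 2) := by
  simp only [Bf, oW]
  simp
  ring

/-- Unit vectors on the upper sheet. -/
structure Up (x : W) : Prop where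
  unit : Bf c0 x x = 1
  pos : 0 < Bf c0 oW x

lemma Up.AG {x : W} (h : Up x) : cA x * cG x = 1 + cB x ^ 2 := by
  have := form_eq x x
  rw [h.unit] at this
  linarith

lemma Up.A_pos {x : W} (h : Up x) : 0 < cA x := by
  have h1 := h.AG
  have h2 := h.pos
  rw [Bf_oW] at h2
  have h3 : cA x + cG x = 2 * (x 0 + c0 * (x 1 + x 2)) := by unfold cA cG; ring
  by_contra hh
  push Not at hh
  have h4 : 0 < cG x := by linarith
  nlinarith [sq_nonneg (cB x)]

noncomputable def toH (x : W) : UpperHalfPlane :=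
  if h : 0 < cA x then ⟨⟨-cB x / cA x, 1 / cA x⟩, by simpa using h⟩ else UpperHalfPlane.I

lemma toH_re {x : W} (h : 0 < cA x) : (toH x).re = -cB x / cA x := by
  unfold toH; rw [dif_pos h]; rfl

lemma toH_im {x : W} (h : 0 < cA x) : (toH x).im = 1 / cA x := by
  unfold toH; rw [dif_pos h]; rfl

lemma cosh_dist_toH {x y : W} (hx : Up x) (hy : Up y) :
    Real.cosh (dist (toH x) (toH y)) = Bf c0 x y := by
  have ax := hx.A_pos
  have ay := hy.A_pos
  rw [UpperHalfPlane.cosh_dist', toH_re ax, toH_re ay, toH_im ax, toH_im ay, ← form_eq]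
  have gx : cG x = (1 + cB x ^ 2) / cA x := by
    rw [eq_div_iff ax.ne', ← hx.AG]; ring
  have gy : cG y = (1 + cB y ^ 2) / cA y := by
    rw [eq_div_iff ay.ne', ← hy.AG]; ring
  rw [gx, gy]
  field_simp
  ring

lemma Up.sq_eq {x y : W} (hx : Up x) (hy : Up y) :
    (cA y * cB x - cA x * cB y) ^ 2 + (cA y - cA x) ^ 2 = 2 * cA x * cA y * (Bf c0 x y - 1) := by
  rw [← form_eq]
  have h1 := hx.AG
  have h2 := hy.AG
  linear_combination (- cA y ^ 2) * h1 - cA x ^ 2 * h2

lemma Up.one_le {x y : W} (hx : Up x) (hy : Up y) : 1 ≤ Bf c0 x y := by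
  have h := hx.sq_eq hy
  have ax := hx.A_pos
  have ay := hy.A_pos
  by_contra hh
  push Not at hh
  have : 2 * cA x * cA y * (Bf c0 x y - 1) < 0 := by
    apply mul_neg_of_pos_of_neg (by positivity) (by linarith)
  nlinarith [sq_nonneg (cA y * cB x - cA x * cB y), sq_nonneg (cA y - cA x)]

lemma Up.eq_of {x y : W} (hx : Up x) (hy : Up y) (h1 : Bf c0 x y = 1) : x = y := by
  have h := hx.sq_eq hy
  have ax := hx.A_pos
  have ay := hy.A_pos
  rw [h1] at h
  have hA : cA y = cA x := by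
    nlinarith [sq_nonneg (cA y * cB x - cA x * cB y), sq_nonneg (cA y - cA x)]
  have hB : cA y * cB x - cA x * cB y = 0 := by
    nlinarith [sq_nonneg (cA y * cB x - cA x * cB y), sq_nonneg (cA y - cA x)]
  rw [hA] at hB
  have hB' : cB x = cB y := by
    have : cA x * (cB x - cB y) = 0 := by linarith
    rcases mul_eq_zero.mp this with h | h
    · exact absurd h ax.ne'
    · linarith
  have hG : cG x = cG y := by
    have e1 := hx.AG
    have e2 := hy.AG
    rw [hA, ← hB'] at e2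
    exact mul_left_cancel₀ ax.ne' (e1.trans e2.symm)
  have s1 := sS_pos
  have s2 := sC_pos
  have e2 : x 2 = y 2 := by
    unfold cB at hB'
    exact mul_left_cancel₀ (by positivity) hB'
  have e1 : x 1 = y 1 := by
    have : 2 * sS * x 1 = 2 * sS * y 1 := by
      unfold cA at hA
      unfold cG at hG
      rw [e2] at hA hG
      linarith
    exact mul_left_cancel₀ (by positivity) this
  have e0 : x 0 = y 0 := by
    unfold cA at hA
    rw [e2, e1] at hA
    linarith
  funext i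
  fin_cases i
  · exact e0
  · exact e1
  · exact e2

lemma toH_inj {x y : W} (hx : Up x) (hy : Up y) (h : toH x = toH y) : x = y := by
  apply hx.eq_of hy
  rw [← cosh_dist_toH hx hy, h, dist_self, Real.cosh_zero]

/-- Coordinates of the dual basis: the inverse Gram matrix. -/
lemma gram_inv {c : ℝ} (hc : (1 - c) * (1 + 2 * c) ≠ 0) {v u w : W} (t : Tri c v u w) (z : W) :
    (1 - c) * (1 + 2 * c) * Bf c z z =
      (1 + c) * (Bf c v z ^ 2 + Bf c u z ^ 2 + Bf c w z ^ 2) -
        2 * c * (Bf c v z * Bf c u z + Bf c v z * Bf c w z + Bf c u z * Bf c w z) := by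
  set κ := (1 - c) * (1 + 2 * c) with hκ
  let G : Matrix (Fin 3) (Fin 3) ℝ := !![1, c, c; c, 1, c; c, c, 1]
  let K : Matrix (Fin 3) (Fin 3) ℝ := !![1 + c, -c, -c; -c, 1 + c, -c; -c, -c, 1 + c]
  let M : Matrix (Fin 3) (Fin 3) ℝ := !![v 0, v 1, v 2; u 0, u 1, u 2; w 0, w 1, w 2]
  have t1 := t.xx
  have t2 := t.yy
  have t3 := t.zz
  have t4 := t.xy
  have t5 := t.xz
  have t6 := t.yz
  unfold Bf at t1 t2 t3 t4 t5 t6
  have hMG : M * G * M.transpose = G := by
    ext i j
    fin_cases i <;> fin_cases j <;>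
      simp [M, G, Matrix.mul_apply, Fin.sum_univ_three] <;> linarith
  have hGK : G * K = κ • (1 : Matrix (Fin 3) (Fin 3) ℝ) := by
    ext i j
    fin_cases i <;> fin_cases j <;>
      simp [K, G, Matrix.mul_apply, Fin.sum_univ_three, hκ] <;> ring
  have h1 : M * (κ⁻¹ • (G * M.transpose * K)) = 1 := by
    rw [Matrix.mul_smul, ← Matrix.mul_assoc, ← Matrix.mul_assoc, hMG, hGK, smul_smul,
      inv_mul_cancel₀ hc, one_smul]
  have h2 : (κ⁻¹ • (G * M.transpose * K)) * M = 1 := mul_eq_one_comm.mp h1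
  have h3 : G * M.transpose * K * M = κ • (1 : Matrix (Fin 3) (Fin 3) ℝ) := by
    rw [Matrix.smul_mul] at h2
    rw [← h2, smul_smul, mul_inv_cancel₀ hc, one_smul]
  have h4 : G * M.transpose * K * M * G = κ • G := by
    rw [h3, Matrix.smul_mul, Matrix.one_mul]
  -- evaluate the quadratic forms
  have e1 : z ⬝ᵥ (κ • G).mulVec z = κ * Bf c z z := by
    simp [G, Matrix.mulVec, dotProduct, Fin.sum_univ_three, Bf]
    ring
  have hw : M.mulVec (G.mulVec z) = ![Bf c v z, Bf c u z, Bf c w z] := by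
    ext i
    fin_cases i <;> simp [M, G, Matrix.mulVec, dotProduct, Fin.sum_univ_three, Bf] <;> ring
  have e2 : z ⬝ᵥ (G * M.transpose * K * M * G).mulVec z =
      (M.mulVec (G.mulVec z)) ⬝ᵥ (K.mulVec (M.mulVec (G.mulVec z))) := by
    have hG : G.transpose = G := by
      ext i j
      fin_cases i <;> fin_cases j <;> simp [G, Matrix.transpose_apply]
    rw [← Matrix.mulVec_mulVec, ← Matrix.mulVec_mulVec, ← Matrix.mulVec_mulVec,
      ← Matrix.mulVec_mulVec]
    rw [Matrix.dotProduct_mulVec, ← Matrix.mulVec_transpose, hG, Matrix.dotProduct_mulVec,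
      ← Matrix.mulVec_transpose, Matrix.transpose_transpose]
  rw [← e1, ← h4, e2, hw]
  simp [K, Matrix.mulVec, dotProduct, Fin.sum_univ_three]
  ring

lemma rigid_final {c l x y : ℝ} (hc : c * (2 - l) = l) (c1 : 1.655 < c) (c2 : c < 1.657)
    (l2 : l < 2) (hx : c ≤ x) (hy : x ≤ y) (hy2 : y ≤ l * (c + x) - x)
    (hQ : (1 - c) * (1 + 2 * c) * 1 =
      (1 + c) * (c ^ 2 + x ^ 2 + y ^ 2) - 2 * c * (c * x + c * y + x * y)) : False := by
  have h1 : 0 ≤ (y - x) * (l * (c + x) - x - y) := mul_nonneg (by linarith) (by linarith)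
  have h2 : x ≤ c ^ 2 := by
    have : (2 - l) * x ≤ (2 - l) * c ^ 2 := by nlinarith
    exact le_of_mul_le_mul_left this (by linarith)
  have hl : (1 + c) * l = 2 * c := by linarith
  -- the main inequality
  have h3 : (1 - c) * (1 + 2 * c) ≤ 2 * x ^ 2 - 4 * c ^ 2 * x + (1 + c) * c ^ 2 := by
    have h4 : 0 ≤ (1 + c) * ((y - x) * (l * (c + x) - x - y)) := mul_nonneg (by linarith) h1
    have h5 : (1 + c) * ((y - x) * (l * (c + x) - x - y)) =
        (y - x) * (2 * c * (c + x) - (1 + c) * (x + y)) := by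
      linear_combination ((y - x) * (c + x)) * hl
    rw [h5] at h4
    linarith
  have h6 : (x - c) * (x - c ^ 2) ≤ 0 := mul_nonpos_of_nonneg_of_nonpos (by linarith) (by linarith)
  have h7 : 0 ≤ (c ^ 2 - c) * (x - c) := mul_nonneg (by nlinarith) (by linarith)
  nlinarith [mul_pos (by linarith : (0:ℝ) < c) (by linarith : (0:ℝ) < c)]

/-- Rigidity of the link. -/
lemma rigid {V z : W} (L : Fin 7 → W) (hT : ∀ i, Tri c0 V (L i) (L (i + 1)))
    (hz : Bf c0 z z = 1) (hV : Bf c0 V z = c0)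
    (hrec : ∀ i, Bf c0 (L (i + 1)) z + Bf c0 (L (i - 1)) z = lam * (c0 + Bf c0 (L i) z))
    (hgap : ∀ i, Bf c0 (L i) z = 1 ∨ c0 ≤ Bf c0 (L i) z) : ∃ i, Bf c0 (L i) z = 1 := by
  by_contra hcon
  push Not at hcon
  have hge : ∀ i, c0 ≤ Bf c0 (L i) z := fun i => (hgap i).resolve_left (hcon i)
  obtain ⟨i, -, hi⟩ := Finset.exists_min_image Finset.univ (fun i => Bf c0 (L i) z)
    ⟨0, Finset.mem_univ _⟩
  have h1 := hi (i + 1) (Finset.mem_univ _)
  have h2 := hi (i - 1) (Finset.mem_univ _)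
  have h3 := hrec i
  have hg := gram_inv (c := c0) (by
    have := c0_lo
    have := c0_hi
    intro h
    rcases mul_eq_zero.mp h with h | h <;> linarith) (hT i) z
  rw [hz, hV] at hg
  exact rigid_final c0_eq c0_lo c0_hi (by linarith [lam_hi]) (hge i) h1 (by linarith) hg

end Pool.Agent.H116.T37
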