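import Mathlib
import Pool.Agent.H116.T37.Hyp

/-!
Vertices of the tiling with their links; the children of a vertex; heights.
-/

set_option autoImplicit false

namespace Pool.Agent.H116.T37

lemma per4 (v a b : Vec) :
    R v (R v (R v (R v b a) b) (R v b a)) (R v (R v b a) b) = R v (R v a b) a := by
  funext μ i
  have h := μ.2
  simp only [R]
  linear_combination ((μ : ℝ) * v μ i + ((μ : ℝ) - 1) * b μ i - a μ i) * h

lemma per5 (v a b : Vec) :
    R v (R v (R v (R v (R v b a) b) (R v b a)) (R v (R v b a) b))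
      (R v (R v (R v b a) b) (R v b a)) = R v a b := by
  funext μ i
  have h := μ.2
  simp only [R]
  linear_combination ((μ : ℝ) ^ 2 * v μ i + ((μ : ℝ) ^ 2 - μ - 1) * b μ i
    - ((μ : ℝ) - 1) * a μ i) * h

/-- A vertex `v` of the tiling together with its left neighbour `u` in its layer and the common
outer neighbour `c` of `u` and `v`. The type is `true` if the vertex has two parents. -/
structure Node where
  ty : Bool
  v : Vec
  u : Vec
  c : Vec

namespace Node

variable (n : Node)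

def c2 : Vec := R n.v n.c n.u
def c3 : Vec := R n.v n.c2 n.c
def x4 : Vec := R n.v n.c3 n.c2
def p1 : Vec := R n.v n.u n.c
def x5 : Vec := R n.v n.p1 n.u

lemma hx5 : R n.v n.x4 n.c3 = n.x5 := per4 n.v n.u n.c
lemma hp1 : R n.v n.x5 n.x4 = n.p1 := by
  rw [← hx5]; exact per5 n.v n.u n.c
lemma c3_eq : R n.v n.x4 n.x5 = n.c3 := by rw [← hx5, R_R]
lemma x4_eq : R n.v n.x5 n.p1 = n.x4 := by rw [← hp1, R_R]
lemma u_eq : R n.v n.p1 n.x5 = n.u := by unfold x5; rw [R_R]
lemma c_eq : R n.v n.u n.p1 = n.c := by unfold p1; rw [R_R]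

/-- The seven neighbours in cyclic order. -/
def L : Fin 7 → Vec := ![n.u, n.c, n.c2, n.c3, n.x4, n.x5, n.p1]

lemma L_succ (i : Fin 7) : n.L (i + 1) = R n.v (n.L i) (n.L (i - 1)) := by
  fin_cases i
  · exact n.c_eq.symm
  · rfl
  · rfl
  · rfl
  · exact n.hx5.symm
  · exact n.hp1.symm
  · exact n.u_eq.symm

/-- Right neighbour in the layer. -/
def nv : Vec := if n.ty then n.x4 else n.x5
/-- Common outer neighbour with the right neighbour. -/
def nc : Vec := if n.ty then n.c3 else n.x4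

end Node

/-- `m` is the right neighbour of `n` in its layer. -/
def Nx (n m : Node) : Prop := m.v = n.nv ∧ m.u = n.v ∧ m.c = n.nc

def childB (n : Node) : Node := ⟨true, n.c, R n.c n.u n.v, R n.c (R n.c n.u n.v) n.u⟩
/-- one-parent vertex with parent `p` -/
def mkA (p v u : Vec) : Node := ⟨false, v, u, R v u p⟩
def childA1 (n : Node) : Node := mkA n.v n.c2 n.c
def childA2 (n : Node) : Node := mkA n.v n.c3 n.c2
def children (n : Node) : List Node :=
  if n.ty then [childB n, childA1 n] else [childB n, childA1 n, childA2 n]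

lemma mkA_p1 (p v u : Vec) : (mkA p v u).p1 = p := by
  unfold Node.p1 mkA; exact R_R _ _ _

lemma mkA_x5 (p v u : Vec) : (mkA p v u).x5 = R v p u := by
  unfold Node.x5; rw [mkA_p1]; rfl

lemma mkA_x4 (p v u : Vec) : (mkA p v u).x4 = R v (R v p u) p := by
  have := (mkA p v u).x4_eq
  rw [mkA_p1, mkA_x5] at this
  exact this.symm

lemma childB_p1 (n : Node) : (childB n).p1 = n.u := by
  unfold Node.p1 childB; exact R_R _ _ _

lemma childB_x5 (n : Node) : (childB n).x5 = n.v := by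
  unfold Node.x5; rw [childB_p1]; unfold childB; exact R_R _ _ _

lemma childB_x4 (n : Node) : (childB n).x4 = n.c2 := by
  have := (childB n).x4_eq
  rw [childB_p1, childB_x5] at this
  rw [← this, Node.c2, R_comm]
  rfl

lemma childB_c3 (n : Node) : (childB n).c3 = R n.c2 n.c n.v := by
  have := (childB n).c3_eq
  rw [childB_x4, childB_x5] at this
  rw [← this, R_comm]
  rfl

lemma Nx_BA (n : Node) : Nx (childB n) (childA1 n) := by
  refine ⟨?_, ?_, ?_⟩
  · show n.c2 = (childB n).x4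
    rw [childB_x4]
  · rfl
  · show R n.c2 n.c n.v = (childB n).c3
    rw [childB_c3]

lemma Nx_mkA (p v u w : Vec) (h : w = R v p u) : Nx (mkA p v u) (mkA p w v) := by
  refine ⟨?_, rfl, ?_⟩
  · show w = (mkA p v u).x5
    rw [mkA_x5, h]
  · show R w v p = (mkA p v u).x4
    rw [mkA_x4, ← h, R_comm]

lemma Nx_AA (n : Node) : Nx (childA1 n) (childA2 n) := by
  apply Nx_mkA
  unfold Node.c3
  rw [R_comm]

lemma Nx_lastA {n m : Node} (hn : n.ty = false) (h : Nx n m) : Nx (childA2 n) (childB m) := by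
  obtain ⟨h1, h2, h3⟩ := h
  simp only [Node.nv, Node.nc, hn] at h1 h3
  simp only [Bool.false_eq_true, if_false] at h1 h3
  have hc3 : R n.x4 n.v n.x5 = n.c3 := by rw [R_comm]; exact n.c3_eq
  refine ⟨?_, ?_, ?_⟩
  · show m.c = (mkA n.v n.c3 n.c2).x5
    rw [mkA_x5, h3, R_comm]
    rfl
  · show R m.c m.u m.v = n.c3
    rw [h1, h2, h3, hc3]
  · show R m.c (R m.c m.u m.v) m.u = (mkA n.v n.c3 n.c2).x4
    rw [mkA_x4, h1, h2, h3, hc3, R_comm n.x4 n.c3, R_comm n.c3 n.v n.c2]
    rfl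

lemma Nx_lastB {n m : Node} (hn : n.ty = true) (h : Nx n m) : Nx (childA1 n) (childB m) := by
  obtain ⟨h1, h2, h3⟩ := h
  simp only [Node.nv, Node.nc, hn] at h1 h3
  simp only [if_true] at h1 h3
  have hc3 : R n.c2 n.v n.c = n.c3 := by rw [R_comm]; rfl
  have hc2 : R n.c3 n.v n.x4 = n.c2 := by rw [R_comm]; unfold Node.x4; rw [R_R]
  refine ⟨?_, ?_, ?_⟩
  · show m.c = (mkA n.v n.c2 n.c).x5
    rw [mkA_x5, h3, hc3]
  · show R m.c m.u m.v = n.c2
    rw [h1, h2, h3, hc2]
  · show R m.c (R m.c m.u m.v) m.u = (mkA n.v n.c2 n.c).x4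
    rw [mkA_x4, h1, h2, h3, hc2, hc3, R_comm n.c3 n.c2]

/-- Goodness of a node. -/
def Node.G (n : Node) : Prop := Good n.v n.u n.c

namespace Node

variable {n : Node}

lemma G.link (h : n.G) (i : Fin 7) : Good n.v (n.L i) (n.L (i + 1)) := by
  have h0 : Good n.v n.u n.c := h
  have h1 : Good n.v n.c n.c2 := h0.swap23.refl
  have h2 : Good n.v n.c2 n.c3 := h1.swap23.refl
  have h3 : Good n.v n.c3 n.x4 := h2.swap23.refl
  have h4 : Good n.v n.x4 n.x5 := by
    have := h3.swap23.refl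
    rwa [n.hx5] at this
  have h5 : Good n.v n.x5 n.p1 := by
    have := h4.swap23.refl
    rwa [n.hp1] at this
  have h6 : Good n.v n.p1 n.u := by
    have := h5.swap23.refl
    rwa [n.u_eq] at this
  fin_cases i
  · exact h0
  · exact h1
  · exact h2
  · exact h3
  · exact h4
  · exact h5
  · exact h6

lemma G.childB (h : n.G) : (childB n).G := by
  have h0 : Good n.v n.u n.c := h
  have h1 : Good n.c n.u n.v := h0.swap23.swap12.swap23
  exact h1.refl.swap23.refl

lemma G.mkA {p v u : Vec} (h : Good v u p) : (mkA p v u).G := h.refl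

lemma G.childA1 (h : n.G) : (childA1 n).G := by
  apply G.mkA
  have h1 : Good n.v n.c n.c2 := h.link 1
  exact h1.swap23.swap12.swap23

lemma G.childA2 (h : n.G) : (childA2 n).G := by
  apply G.mkA
  have h1 : Good n.v n.c2 n.c3 := h.link 2
  exact h1.swap23.swap12.swap23

lemma G.children (h : n.G) : ∀ m ∈ children n, m.G := by
  intro m hm
  unfold T37.children at hm
  split_ifs at hm
  · simp only [List.mem_cons, List.not_mem_nil, or_false] at hm
    rcases hm with rfl | rfl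
    · exact h.childB
    · exact h.childA1
  · simp only [List.mem_cons, List.not_mem_nil, or_false] at hm
    rcases hm with rfl | rfl | rfl
    · exact h.childB
    · exact h.childA1
    · exact h.childA2

end Node

/-- Height above the base point. -/
noncomputable def ht (x : Vec) : ℝ := Bf c0 oW (x lam)

lemma ht_R (x y z : Vec) : ht (R x y z) = (lam : ℝ) * (ht x + ht y) - ht z := by
  unfold ht; rw [Bf_R_right]

structure InvA (n : Node) : Prop where
  a1 : 1 ≤ ht n.p1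
  a2 : ht n.p1 < ht n.v
  a3 : ht n.p1 < ht n.u
  a4 : ht n.p1 < ht n.x5

structure InvB (n : Node) : Prop where
  a1 : 1 ≤ ht n.p1
  a2 : ht n.p1 < ht n.v
  b1 : 1 ≤ ht n.x5
  b2 : ht n.x5 < ht n.v
  a3 : ht n.p1 < ht n.u
  b3 : ht n.x5 < ht n.x4

/-- Height invariants. -/
def Inv (n : Node) : Prop := (n.ty = false → InvA n) ∧ (n.ty = true → InvB n)

structure Hts (n : Node) : Prop where
  v1 : 1 ≤ ht n.v
  u1 : 1 ≤ ht n.u
  c : ht n.v < ht n.c
  c2 : ht n.v < ht n.c2
  c3 : ht n.v < ht n.c3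
  uc : ht n.u < ht n.c
  uq : ht n.u < ht (R n.c n.u n.v)

lemma ht_step {l a b c : ℝ} (hl : 1 < l) (ha : 1 ≤ a) (hb : 1 ≤ b) (hcb : c < b) :
    a < l * (a + b) - c := by nlinarith

lemma ht_step' {l a b c : ℝ} (hl : 1 < l) (ha : 1 ≤ a) (hb : 1 ≤ b) (hca : c < a) :
    b < l * (a + b) - c := by nlinarith

lemma InvA.hts {n : Node} (h : InvA n) : Hts n ∧ ht n.v < ht n.x4 := by
  have hl := lam_gt_one
  have v1 : 1 ≤ ht n.v := h.a1.trans h.a2.le
  have u1 : 1 ≤ ht n.u := h.a1.trans h.a3.le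
  have w1 : 1 ≤ ht n.x5 := h.a1.trans h.a4.le
  have ec : ht n.c = (lam : ℝ) * (ht n.v + ht n.u) - ht n.p1 := by rw [← ht_R, n.c_eq]
  have ec2 : ht n.c2 = (lam : ℝ) * (ht n.v + ht n.c) - ht n.u := by rw [← ht_R]; rfl
  have ex4 : ht n.x4 = (lam : ℝ) * (ht n.v + ht n.x5) - ht n.p1 := by rw [← ht_R, n.x4_eq]
  have ec3 : ht n.c3 = (lam : ℝ) * (ht n.v + ht n.x4) - ht n.x5 := by rw [← ht_R, n.c3_eq]
  have eq : ht (R n.c n.u n.v) = (lam : ℝ) * (ht n.c + ht n.u) - ht n.v := ht_R _ _ _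
  have hc : ht n.v < ht n.c := by rw [ec]; exact ht_step hl v1 u1 h.a3
  have huc : ht n.u < ht n.c := by rw [ec]; exact ht_step' hl v1 u1 h.a2
  have hc2 : ht n.v < ht n.c2 := by rw [ec2]; exact ht_step hl v1 (v1.trans hc.le) huc
  have hx4 : ht n.v < ht n.x4 := by rw [ex4]; exact ht_step hl v1 w1 h.a4
  have hx54 : ht n.x5 < ht n.x4 := by rw [ex4]; exact ht_step' hl v1 w1 h.a2
  have hc3 : ht n.v < ht n.c3 := by rw [ec3]; exact ht_step hl v1 (v1.trans hx4.le) hx54
  have huq : ht n.u < ht (R n.c n.u n.v) := by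
    rw [eq]; exact ht_step' hl (v1.trans hc.le) u1 hc
  exact ⟨⟨v1, u1, hc, hc2, hc3, huc, huq⟩, hx4⟩

lemma InvB.hts {n : Node} (h : InvB n) : Hts n := by
  have hl := lam_gt_one
  have v1 : 1 ≤ ht n.v := h.a1.trans h.a2.le
  have u1 : 1 ≤ ht n.u := h.a1.trans h.a3.le
  have w1 : 1 ≤ ht n.x4 := h.b1.trans h.b3.le
  have ec : ht n.c = (lam : ℝ) * (ht n.v + ht n.u) - ht n.p1 := by rw [← ht_R, n.c_eq]
  have ec2 : ht n.c2 = (lam : ℝ) * (ht n.v + ht n.c) - ht n.u := by rw [← ht_R]; rfl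
  have ec3 : ht n.c3 = (lam : ℝ) * (ht n.v + ht n.x4) - ht n.x5 := by rw [← ht_R, n.c3_eq]
  have eq : ht (R n.c n.u n.v) = (lam : ℝ) * (ht n.c + ht n.u) - ht n.v := ht_R _ _ _
  have hc : ht n.v < ht n.c := by rw [ec]; exact ht_step hl v1 u1 h.a3
  have huc : ht n.u < ht n.c := by rw [ec]; exact ht_step' hl v1 u1 h.a2
  have hc2 : ht n.v < ht n.c2 := by rw [ec2]; exact ht_step hl v1 (v1.trans hc.le) huc
  have hc3 : ht n.v < ht n.c3 := by rw [ec3]; exact ht_step hl v1 w1 h.b3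
  have huq : ht n.u < ht (R n.c n.u n.v) := by
    rw [eq]; exact ht_step' hl (v1.trans hc.le) u1 hc
  exact ⟨v1, u1, hc, hc2, hc3, huc, huq⟩

lemma Inv.hts {n : Node} (h : Inv n) : Hts n := by
  cases hn : n.ty
  · exact (h.1 hn).hts.1
  · exact (h.2 hn).hts

lemma Inv.x4 {n : Node} (h : Inv n) (hn : n.ty = false) : ht n.v < ht n.x4 := (h.1 hn).hts.2

lemma InvA_mkA {p v u : Vec} (h1 : 1 ≤ ht p) (h2 : ht p < ht v) (h3 : ht p < ht u)
    (h4 : ht p < ht (R v p u)) : Inv (mkA p v u) := by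
  refine ⟨fun _ => ⟨?_, ?_, ?_, ?_⟩, fun h => by simp [mkA] at h⟩
  · rwa [mkA_p1]
  · rwa [mkA_p1]
  · rwa [mkA_p1]
  · rwa [mkA_p1, mkA_x5]

lemma Inv.childB {n : Node} (h : Inv n) : Inv (childB n) := by
  have H := h.hts
  refine ⟨fun h => by simp [T37.childB] at h, fun _ => ⟨?_, ?_, ?_, ?_, ?_, ?_⟩⟩
  · rw [childB_p1]; exact H.u1
  · rw [childB_p1]; exact H.uc
  · rw [childB_x5]; exact H.v1
  · rw [childB_x5]; exact H.c
  · rw [childB_p1]; exact H.uq
  · rw [childB_x5, childB_x4]; exact H.c2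

lemma Inv.childA1 {n : Node} (h : Inv n) : Inv (childA1 n) := by
  have H := h.hts
  refine InvA_mkA H.v1 H.c2 H.c ?_
  have : R n.c2 n.v n.c = n.c3 := by rw [R_comm]; rfl
  rw [this]; exact H.c3

lemma Inv.childA2 {n : Node} (h : Inv n) (hn : n.ty = false) : Inv (childA2 n) := by
  have H := h.hts
  refine InvA_mkA H.v1 H.c3 H.c2 ?_
  have : R n.c3 n.v n.c2 = n.x4 := by rw [R_comm]; rfl
  rw [this]; exact h.x4 hn

lemma Inv.children {n : Node} (h : Inv n) : ∀ m ∈ children n, Inv m := by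
  intro m hm
  unfold T37.children at hm
  split_ifs at hm with hn
  · simp only [List.mem_cons, List.not_mem_nil, or_false] at hm
    rcases hm with rfl | rfl
    · exact h.childB
    · exact h.childA1
  · simp only [List.mem_cons, List.not_mem_nil, or_false] at hm
    rcases hm with rfl | rfl | rfl
    · exact h.childB
    · exact h.childA1
    · exact h.childA2 (by simpa using hn)

/-- Indices of the parents in the link. -/
def isPar (n : Node) (i : Fin 7) : Prop := i = 6 ∨ (n.ty = true ∧ i = 5)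

lemma par_lt {n : Node} (h : Inv n) (j : Fin 7) (hj : ¬ isPar n j) :
    ∃ k, isPar n k ∧ ht (n.L k) < ht (n.L j) := by
  have H := h.hts
  have key : ∀ z : Vec, ht n.v < ht z → ∃ k, isPar n k ∧ ht (n.L k) < ht z := by
    intro z hz
    refine ⟨6, Or.inl rfl, ?_⟩
    show ht n.p1 < ht z
    cases hn : n.ty
    · exact (h.1 hn).a2.trans hz
    · exact (h.2 hn).a2.trans hz
  have keyu : ht n.p1 < ht n.u := by
    cases hn : n.ty
    · exact (h.1 hn).a3
    · exact (h.2 hn).a3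
  fin_cases j
  · exact ⟨6, Or.inl rfl, keyu⟩
  · exact key _ H.c
  · exact key _ H.c2
  · exact key _ H.c3
  · cases hn : n.ty
    · exact key _ (h.x4 hn)
    · exact ⟨5, Or.inr ⟨hn, rfl⟩, (h.2 hn).b3⟩
  · cases hn : n.ty
    · exact ⟨6, Or.inl rfl, (h.1 hn).a4⟩
    · exact absurd (Or.inr ⟨hn, rfl⟩) hj
  · exact absurd (Or.inl rfl) hj

lemma par_min {n : Node} (h : Inv n) : ∃ i, isPar n i ∧ ∀ j, ht (n.L i) ≤ ht (n.L j) := by
  obtain ⟨i, -, hi⟩ := Finset.exists_min_image Finset.univ (fun i => ht (n.L i))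
    ⟨0, Finset.mem_univ _⟩
  by_cases hp : isPar n i
  · exact ⟨i, hp, fun j => hi j (Finset.mem_univ _)⟩
  · obtain ⟨k, -, hk⟩ := par_lt h i hp
    exact absurd (hi k (Finset.mem_univ _)) (not_le.mpr hk)

lemma Node.G.up_v {n : Node} (h : n.G) (hi : Inv n) : Up (n.v lam) :=
  ⟨(h.tri lam).xx, by have := hi.hts.v1; unfold ht at this; linarith⟩

lemma link_pos {n : Node} (h : Inv n) (j : Fin 7) : 0 < ht (n.L j) := by
  obtain ⟨i, hi, hmin⟩ := par_min h
  have : 1 ≤ ht (n.L i) := by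
    rcases hi with rfl | ⟨hn, rfl⟩
    · cases hn : n.ty
      · exact (h.1 hn).a1
      · exact (h.2 hn).a1
    · exact (h.2 hn).b1
  linarith [hmin j]

lemma Node.G.up_L {n : Node} (h : n.G) (hi : Inv n) (j : Fin 7) : Up (n.L j lam) :=
  ⟨((h.link j).tri lam).yy, link_pos hi j⟩

/-- Two nodes with the same vertex have the same link. -/
lemma link_sub {n m : Node} (gn : n.G) (gm : m.G) (hn : Inv n) (hm : Inv m)
    (h : n.v lam = m.v lam) (i : Fin 7) : ∃ j, n.L i lam = m.L j lam := by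
  have up := gn.up_L hn i
  obtain ⟨j, hj⟩ := rigid (V := m.v lam) (z := n.L i lam) (fun j => m.L j lam)
    (fun j => (gm.link j).tri lam) up.unit (by rw [← h]; exact ((gn.link i).tri lam).xy)
    (by
      intro j
      show Bf c0 (m.L (j + 1) lam) _ + Bf c0 (m.L (j - 1) lam) _ = lam * (c0 + Bf c0 (m.L j lam) _)
      rw [m.L_succ j, Bf_R_left]
      have : Bf c0 (m.v lam) (n.L i lam) = c0 := by rw [← h]; exact ((gn.link i).tri lam).xy
      rw [this]
      ring)
    (fun j => gap (gm.link j).vy (gn.link i).vy (fun μ => ((gm.link j).tri μ).yy)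
      (fun μ => ((gn.link i).tri μ).yy) ((gm.up_L hm j).one_le up))
  exact ⟨j, ((gm.up_L hm j).eq_of up hj).symm⟩

/-- Two nodes with the same vertex have a common parent. -/
lemma common_parent {n m : Node} (gn : n.G) (gm : m.G) (hn : Inv n) (hm : Inv m)
    (h : n.v lam = m.v lam) : ∃ i j, isPar n i ∧ isPar m j ∧ n.L i lam = m.L j lam := by
  obtain ⟨i, hi, hmin⟩ := par_min hn
  obtain ⟨j, hj⟩ := link_sub gn gm hn hm h i
  refine ⟨i, j, hi, ?_, hj⟩
  by_contra hpj
  obtain ⟨k, -, hk⟩ := par_lt hm j hpj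
  obtain ⟨l, hl⟩ := link_sub gm gn hm hn h.symm k
  have h1 : ht (m.L k) = ht (n.L l) := by unfold ht; rw [hl]
  have h2 : ht (n.L i) = ht (m.L j) := by unfold ht; rw [hj]
  have := hmin l
  linarith

/-- Different elements of the link are different vertices. -/
lemma L_inj {n : Node} (g : n.G) {i j : Fin 7} (hij : i ≠ j) : n.L i lam ≠ n.L j lam := by
  have hu : ∀ i, Bf c0 (n.L i lam) (n.L i lam) = 1 := fun i => ((g.link i).tri lam).yy
  have hv : ∀ i, Bf c0 (n.L i lam) (n.v lam) = c0 := fun i => by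
    rw [Bf_comm]; exact ((g.link i).tri lam).xy
  have h1 : ∀ i, Bf c0 (n.L i lam) (n.L (i + 1) lam) = c0 := fun i => ((g.link i).tri lam).yz
  have h2 : ∀ i, Bf c0 (n.L i lam) (n.L (i + 1 + 1) lam) = 2 * lam * c0 - 1 := fun i => by
    rw [n.L_succ (i + 1), Bf_R_right, hv, h1, add_sub_cancel_right, hu]; ring
  have h3 : ∀ i, Bf c0 (n.L i lam) (n.L (i + 1 + 1 + 1) lam) =
      lam * (c0 + (2 * lam * c0 - 1)) - c0 := fun i => by
    rw [n.L_succ (i + 1 + 1), Bf_R_right, hv, h2, add_sub_cancel_right, h1]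
  have a1 := c0_lo
  have a2 := c0_hi
  have a3 := lam_lo
  have a4 := lam_hi
  have n1 : ∀ i, n.L i lam ≠ n.L (i + 1) lam := fun i he => by
    have := h1 i
    rw [← he, hu] at this
    linarith
  have n2 : ∀ i, n.L i lam ≠ n.L (i + 1 + 1) lam := fun i he => by
    have := h2 i
    rw [← he, hu] at this
    nlinarith
  have n3 : ∀ i, n.L i lam ≠ n.L (i + 1 + 1 + 1) lam := fun i he => by
    have := h3 i
    rw [← he, hu] at this
    nlinarith [mul_pos (show (0:ℝ) < lam - 1 by linarith) (show (0:ℝ) < c0 - 1 by linarith)]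
  have hcase : ∀ i j : Fin 7, i ≠ j → (j = i + 1 ∨ j = i + 1 + 1 ∨ j = i + 1 + 1 + 1 ∨ i = j + 1 ∨
      i = j + 1 + 1 ∨ i = j + 1 + 1 + 1) := by decide
  rcases hcase i j hij with h | h | h | h | h | h
  · rw [h]; exact n1 i
  · rw [h]; exact n2 i
  · rw [h]; exact n3 i
  · rw [h]; exact (n1 j).symm
  · rw [h]; exact (n2 j).symm
  · rw [h]; exact (n3 j).symm

end Pool.Agent.H116.T37
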