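import Mathlib
import Pool.Agent.H116.T37.Node

/-!
Layers of the tiling around a vertex, distinctness.
-/

set_option autoImplicit false

namespace Pool.Agent.H116.T37

/-- The vertex at the distinguished place. -/
noncomputable def pt (n : Node) : W := n.v lam

structure LayOK (l : List Node) : Prop where
  good : ∀ n ∈ l, n.G
  inv : ∀ n ∈ l, Inv n
  pred : ∀ n ∈ l, ∃ w ∈ l, Nx w n
  nodup : (l.map pt).Nodup

lemma LayOK.inj {l : List Node} (h : LayOK l) {a b : Node} (ha : a ∈ l) (hb : b ∈ l)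
    (hab : pt a = pt b) : a = b :=
  List.inj_on_of_nodup_map h.nodup ha hb hab

/-- children are link elements 1, 2, 3 -/
lemma child_cases {n x : Node} (hx : x ∈ children n) :
    (x = childB n) ∨ (x = childA1 n) ∨ (n.ty = false ∧ x = childA2 n) := by
  unfold children at hx
  split_ifs at hx with hn
  · simp only [List.mem_cons, List.not_mem_nil, or_false] at hx
    tauto
  · simp only [List.mem_cons, List.not_mem_nil, or_false] at hx
    have : n.ty = false := by simpa using hn
    tauto

/-- The parents of a child. -/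
lemma child_par {n x : Node} (hx : x ∈ children n) {i : Fin 7} (hi : isPar x i) :
    x.L i = n.v ∨ (x = childB n ∧ x.L i = n.u) := by
  rcases child_cases hx with rfl | rfl | ⟨-, rfl⟩
  · rcases hi with rfl | ⟨-, rfl⟩
    · right; exact ⟨rfl, childB_p1 n⟩
    · left; exact childB_x5 n
  · rcases hi with rfl | ⟨h, -⟩
    · left; exact mkA_p1 _ _ _
    · exact absurd h (by simp [childA1, mkA])
  · rcases hi with rfl | ⟨h, -⟩
    · left; exact mkA_p1 _ _ _
    · exact absurd h (by simp [childA2, mkA])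

/-- a child is different from the outer neighbour shared with the right neighbour -/
lemma child_ne_nc {n x : Node} (g : n.G) (hx : x ∈ children n) : pt x ≠ n.nc lam := by
  unfold Node.nc
  rcases child_cases hx with rfl | rfl | ⟨hn, rfl⟩
  · cases hn : n.ty
    · simp only [Bool.false_eq_true, if_false]
      exact L_inj g (i := 1) (j := 4) (by decide)
    · simp only [if_true]
      exact L_inj g (i := 1) (j := 3) (by decide)
  · cases hn : n.ty
    · simp only [Bool.false_eq_true, if_false]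
      exact L_inj g (i := 2) (j := 4) (by decide)
    · simp only [if_true]
      exact L_inj g (i := 2) (j := 3) (by decide)
  · simp only [hn, Bool.false_eq_true, if_false]
    exact L_inj g (i := 3) (j := 4) (by decide)

lemma children_nodup {n : Node} (g : n.G) : ((children n).map pt).Nodup := by
  have h12 : pt (childB n) ≠ pt (childA1 n) := L_inj g (i := 1) (j := 2) (by decide)
  have h13 : pt (childB n) ≠ pt (childA2 n) := L_inj g (i := 1) (j := 3) (by decide)
  have h23 : pt (childA1 n) ≠ pt (childA2 n) := L_inj g (i := 2) (j := 3) (by decide)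
  unfold children
  split_ifs
  · simp [h12]
  · simp [h12, h13, h23]

lemma children_pred {l : List Node} (h : LayOK l) :
    ∀ x ∈ l.flatMap children, ∃ w ∈ l.flatMap children, Nx w x := by
  intro x hx
  rw [List.mem_flatMap] at hx
  obtain ⟨n, hn, hx⟩ := hx
  rcases child_cases hx with rfl | rfl | ⟨hty, rfl⟩
  · obtain ⟨w, hw, hwn⟩ := h.pred n hn
    cases hwt : w.ty
    · refine ⟨childA2 w, ?_, Nx_lastA hwt hwn⟩
      rw [List.mem_flatMap]
      exact ⟨w, hw, by simp [children, hwt]⟩
    · refine ⟨childA1 w, ?_, Nx_lastB hwt hwn⟩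
      rw [List.mem_flatMap]
      exact ⟨w, hw, by simp [children, hwt]⟩
  · refine ⟨childB n, ?_, Nx_BA n⟩
    rw [List.mem_flatMap]
    exact ⟨n, hn, by unfold children; split_ifs <;> simp⟩
  · refine ⟨childA1 n, ?_, Nx_AA n⟩
    rw [List.mem_flatMap]
    exact ⟨n, hn, by unfold children; split_ifs <;> simp⟩

lemma disj_aux {l : List Node} (h : LayOK l) {n m : Node} (hn : n ∈ l) (hm : m ∈ l)
    (hu : n.v lam = m.u lam) {x : Node} (hx : x ∈ children n) :
    pt x ≠ pt (childB m) := by
  obtain ⟨w, hw, hwm⟩ := h.pred m hm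
  have : n = w := h.inj hn hw (by show n.v lam = w.v lam; rw [hu, hwm.2.1])
  subst this
  show pt x ≠ m.c lam
  rw [hwm.2.2]
  exact child_ne_nc (h.good n hn) hx

lemma children_disj {l : List Node} (h : LayOK l) {n m : Node} (hn : n ∈ l) (hm : m ∈ l)
    (hne : pt n ≠ pt m) {x y : Node} (hx : x ∈ children n) (hy : y ∈ children m) :
    pt x ≠ pt y := by
  intro he
  have gn := h.good n hn
  have gm := h.good m hm
  obtain ⟨i, j, hi, hj, hij⟩ := common_parent (gn.children x hx) (gm.children y hy)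
    ((h.inv n hn).children x hx) ((h.inv m hm).children y hy) he
  rcases child_par hx hi with h1 | ⟨rfl, h1⟩ <;> rcases child_par hy hj with h2 | ⟨rfl, h2⟩
  · rw [h1, h2] at hij; exact hne hij
  · rw [h1, h2] at hij
    exact disj_aux h hn hm hij hx he
  · rw [h1, h2] at hij
    exact disj_aux h hm hn hij.symm hy he.symm
  · rw [h1, h2] at hij
    obtain ⟨w, hw, hwn⟩ := h.pred n hn
    obtain ⟨w', hw', hwm⟩ := h.pred m hm
    have : w = w' := h.inj hw hw' (by
      show w.v lam = w'.v lam
      rw [← hwn.2.1, ← hwm.2.1]; exact hij)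
    subst this
    apply hne
    show n.v lam = m.v lam
    rw [hwn.1, hwm.1]

lemma LayOK.next {l : List Node} (h : LayOK l) : LayOK (l.flatMap children) := by
  refine ⟨?_, ?_, children_pred h, ?_⟩
  · intro x hx
    rw [List.mem_flatMap] at hx
    obtain ⟨n, hn, hx⟩ := hx
    exact (h.good n hn).children x hx
  · intro x hx
    rw [List.mem_flatMap] at hx
    obtain ⟨n, hn, hx⟩ := hx
    exact (h.inv n hn).children x hx
  · rw [List.map_flatMap, List.nodup_flatMap]
    refine ⟨fun n hn => children_nodup (h.good n hn), ?_⟩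
    have hp := h.nodup
    rw [List.Nodup, List.pairwise_map] at hp
    refine hp.imp_of_mem ?_
    intro a b ha hb hab
    rw [Function.onFun, List.disjoint_left]
    intro z hz hz'
    rw [List.mem_map] at hz hz'
    obtain ⟨x, hx, rfl⟩ := hz
    obtain ⟨y, hy, hxy⟩ := hz'
    exact children_disj h ha hb hab hx hy hxy.symm

/-! ### The first layer -/

def oV : Vec := fun _ => oW
def e0 : Vec := fun _ i => if i = 1 then 1 else 0
def e1 : Vec := fun _ i => if i = 2 then 1 else 0

lemma good_base : Good oV e0 e1 := by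
  have z : IsInt (fun _ => (0 : ℝ)) := IsInt.zero
  have o : IsInt (fun _ => (1 : ℝ)) := IsInt.one
  refine ⟨fun μ => ⟨?_, ?_, ?_, ?_, ?_, ?_⟩, ⟨fun i => ?_, ?_⟩, ⟨fun i => ?_, ?_⟩, ⟨fun i => ?_, ?_⟩⟩
  · simp [Bf, oV, oW]
  · simp [Bf, e0]
  · simp [Bf, e1]
  · simp [Bf, oV, oW, e0]
  · simp [Bf, oV, oW, e1]
  · simp [Bf, e0, e1]
  · fin_cases i
    · exact o.congr fun μ => by simp [oV, oW]
    · exact z.congr fun μ => by simp [oV, oW]
    · exact z.congr fun μ => by simp [oV, oW]
  · exact z.congr fun μ => by simp [oV, oW]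
  · fin_cases i
    · exact z.congr fun μ => by simp [e0]
    · exact o.congr fun μ => by simp [e0]
    · exact z.congr fun μ => by simp [e0]
  · exact z.congr fun μ => by simp [e0]
  · fin_cases i
    · exact z.congr fun μ => by simp [e1]
    · exact z.congr fun μ => by simp [e1]
    · exact o.congr fun μ => by simp [e1]
  · exact z.congr fun μ => by simp [e1]

/-- The centre as a pseudo node, used for its link. -/
def cen : Node := ⟨false, oV, e0, e1⟩

lemma cen_G : cen.G := good_base

/-- The nodes of the first layer. -/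
def nd0 (i : Fin 7) : Node := mkA oV (cen.L i) (cen.L (i - 1))

def lay0 : List Node := [nd0 0, nd0 1, nd0 2, nd0 3, nd0 4, nd0 5, nd0 6]

lemma nd0_mem (i : Fin 7) : nd0 i ∈ lay0 := by
  fin_cases i <;> simp [lay0]

lemma mem_lay0 {n : Node} (h : n ∈ lay0) : ∃ i, n = nd0 i := by
  simp only [lay0, List.mem_cons, List.not_mem_nil, or_false] at h
  rcases h with h | h | h | h | h | h | h <;> exact ⟨_, h⟩

lemma nd0_Nx (i : Fin 7) : Nx (nd0 i) (nd0 (i + 1)) := by
  unfold nd0
  rw [add_sub_cancel_right]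
  apply Nx_mkA
  rw [cen.L_succ i, R_comm]
  rfl

lemma ht_oV : ht oV = 1 := by simp [ht, Bf, oV, oW]

lemma ht_cen (i : Fin 7) : ht (cen.L i) = c0 := ((cen_G.link i).tri lam).xy

lemma nd0_G (i : Fin 7) : (nd0 i).G := by
  apply Node.G.mkA
  have h := cen_G.link (i - 1)
  rw [sub_add_cancel] at h
  exact h.swap23.swap12.swap23

lemma nd0_Inv (i : Fin 7) : Inv (nd0 i) := by
  have h1 := c0_lo
  refine InvA_mkA ?_ ?_ ?_ ?_
  · rw [ht_oV]
  · rw [ht_oV, ht_cen]; linarith
  · rw [ht_oV, ht_cen]; linarith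
  · have : R (cen.L i) oV (cen.L (i - 1)) = cen.L (i + 1) := by
      rw [cen.L_succ i, R_comm]; rfl
    rw [this, ht_oV, ht_cen]; linarith

lemma lay0_OK : LayOK lay0 := by
  refine ⟨?_, ?_, ?_, ?_⟩
  · intro n hn
    obtain ⟨i, rfl⟩ := mem_lay0 hn
    exact nd0_G i
  · intro n hn
    obtain ⟨i, rfl⟩ := mem_lay0 hn
    exact nd0_Inv i
  · intro n hn
    obtain ⟨i, rfl⟩ := mem_lay0 hn
    refine ⟨nd0 (i - 1), nd0_mem _, ?_⟩
    have := nd0_Nx (i - 1)
    rwa [sub_add_cancel] at this
  · have : lay0 = List.map nd0 (List.finRange 7) := by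
      simp [lay0, List.finRange_succ]
    rw [this, List.map_map]
    apply List.Nodup.map _ (List.nodup_finRange 7)
    intro i j hij
    by_contra hne
    exact L_inj cen_G hne hij

/-- Layers around the centre. -/
def lay : ℕ → List Node
  | 0 => lay0
  | k + 1 => (lay k).flatMap children

lemma lay_OK (k : ℕ) : LayOK (lay k) := by
  induction k with
  | zero => exact lay0_OK
  | succ k ih => exact ih.next

/-- Parents of nodes in the first layer. -/
lemma par_lay0 {x : Node} (hx : x ∈ lay 0) {i : Fin 7} (hi : isPar x i) : x.L i = oV := by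
  obtain ⟨j, rfl⟩ := mem_lay0 hx
  rcases hi with rfl | ⟨h, -⟩
  · exact mkA_p1 _ _ _
  · exact absurd h (by simp [nd0, mkA])

/-- Parents of nodes in layer `k+1` lie in layer `k`. -/
lemma par_lay {k : ℕ} {x : Node} (hx : x ∈ lay (k + 1)) {i : Fin 7} (hi : isPar x i) :
    ∃ y ∈ lay k, x.L i = y.v := by
  have hx' : x ∈ (lay k).flatMap children := hx
  rw [List.mem_flatMap] at hx'
  obtain ⟨n, hn, hxn⟩ := hx'
  rcases child_par hxn hi with h | ⟨-, h⟩
  · exact ⟨n, hn, h⟩
  · obtain ⟨w, hw, hwn⟩ := (lay_OK k).pred n hn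
    exact ⟨w, hw, by rw [h, hwn.2.1]⟩

lemma ht_gt_one {k : ℕ} {x : Node} (hx : x ∈ lay k) : 1 < ht x.v := by
  have h := (lay_OK k).inv x hx
  cases hn : x.ty
  · exact (h.1 hn).a1.trans_lt (h.1 hn).a2
  · exact (h.2 hn).a1.trans_lt (h.2 hn).a2

lemma pt_ne_o {k : ℕ} {x : Node} (hx : x ∈ lay k) : pt x ≠ oW := by
  intro h
  have h1 := ht_gt_one hx
  have h2 : ht x.v = ht oV := by
    unfold ht; show Bf c0 oW (pt x) = _; rw [h]; rfl
  rw [h2, ht_oV] at h1
  exact lt_irrefl _ h1

/-- Different layers are disjoint. -/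
lemma lay_disj (j : ℕ) : ∀ i, j < i → ∀ x ∈ lay i, ∀ y ∈ lay j, pt x ≠ pt y := by
  induction j with
  | zero =>
    intro i hi x hx y hy he
    obtain ⟨i, rfl⟩ : ∃ i', i = i' + 1 := ⟨i - 1, by omega⟩
    obtain ⟨a, b, ha, hb, hab⟩ := common_parent ((lay_OK _).good x hx) ((lay_OK _).good y hy)
      ((lay_OK _).inv x hx) ((lay_OK _).inv y hy) he
    rw [par_lay0 hy hb] at hab
    obtain ⟨z, hz, hxz⟩ := par_lay hx ha
    rw [hxz] at hab
    exact pt_ne_o hz hab
  | succ j ih =>
    intro i hi x hx y hy he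
    obtain ⟨i, rfl⟩ : ∃ i', i = i' + 1 := ⟨i - 1, by omega⟩
    obtain ⟨a, b, ha, hb, hab⟩ := common_parent ((lay_OK _).good x hx) ((lay_OK _).good y hy)
      ((lay_OK _).inv x hx) ((lay_OK _).inv y hy) he
    obtain ⟨z, hz, hxz⟩ := par_lay hx ha
    obtain ⟨z', hz', hyz⟩ := par_lay hy hb
    rw [hxz, hyz] at hab
    exact ih i (by omega) z hz z' hz' hab

end Pool.Agent.H116.T37
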