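import Mathlib
import Pool.Agent.H116.T37.Layer

/-!
Counting touching pairs.
-/

set_option autoImplicit false

open scoped Classical

namespace Pool.Agent.H116.T37

/-! ### Cyclic chains -/

lemma children_eq_cons (n : Node) : ∃ tl, children n = childB n :: tl := by
  unfold children
  split_ifs
  · exact ⟨_, rfl⟩
  · exact ⟨_, rfl⟩

lemma chain_next (l : List Node) (h : Node) (hc : List.IsChain Nx (l ++ [h])) :
    List.IsChain Nx (l.flatMap children ++ [childB h]) := by
  induction l with
  | nil => simp
  | cons n t ih =>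
    have key : ∃ m rest, (t.flatMap children ++ [childB h]) = childB m :: rest ∧ Nx n m := by
      cases t with
      | nil =>
        refine ⟨h, [], rfl, ?_⟩
        simpa using hc
      | cons m t' =>
        obtain ⟨tl, htl⟩ := children_eq_cons m
        refine ⟨m, tl ++ (t'.flatMap children ++ [childB h]), ?_, ?_⟩
        · rw [List.flatMap_cons, htl]; simp
        · rw [List.cons_append, List.cons_append, List.isChain_cons_cons] at hc
          exact hc.1
    obtain ⟨m, rest, hmr, hnm⟩ := key
    have hc' : List.IsChain Nx (t ++ [h]) := by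
      rw [List.cons_append] at hc
      exact hc.tail
    have ih' := ih hc'
    rw [hmr] at ih'
    rw [List.flatMap_cons, List.append_assoc, hmr]
    unfold children
    split_ifs with hn
    · show List.IsChain Nx (childB n :: childA1 n :: childB m :: rest)
      rw [List.isChain_cons_cons, List.isChain_cons_cons]
      exact ⟨Nx_BA n, Nx_lastB hn hnm, ih'⟩
    · show List.IsChain Nx (childB n :: childA1 n :: childA2 n :: childB m :: rest)
      rw [List.isChain_cons_cons, List.isChain_cons_cons, List.isChain_cons_cons]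
      exact ⟨Nx_BA n, Nx_AA n, Nx_lastA (by simpa using hn) hnm, ih'⟩

lemma chain_lay (k : ℕ) : ∃ h tl, lay k = h :: tl ∧ List.IsChain Nx (lay k ++ [h]) := by
  induction k with
  | zero =>
    refine ⟨nd0 0, [nd0 1, nd0 2, nd0 3, nd0 4, nd0 5, nd0 6], rfl, ?_⟩
    show List.IsChain Nx [nd0 0, nd0 1, nd0 2, nd0 3, nd0 4, nd0 5, nd0 6, nd0 0]
    simp only [List.isChain_cons_cons, List.IsChain.singleton, and_true]
    exact ⟨nd0_Nx 0, nd0_Nx 1, nd0_Nx 2, nd0_Nx 3, nd0_Nx 4, nd0_Nx 5, nd0_Nx 6⟩
  | succ k ih =>
    obtain ⟨h, tl, he, hc⟩ := ih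
    obtain ⟨tl', htl'⟩ := children_eq_cons h
    refine ⟨childB h, tl' ++ tl.flatMap children, ?_, chain_next _ _ hc⟩
    show (lay k).flatMap children = _
    rw [he, List.flatMap_cons, htl']
    rfl

/-! ### Type counts -/

/-- number of two-parent vertices -/
def nB (l : List Node) : ℕ := l.countP (fun n => n.ty)

lemma nB_append (l m : List Node) : nB (l ++ m) = nB l + nB m := List.countP_append

lemma nB_le (l : List Node) : nB l ≤ l.length := List.countP_le_length

lemma nB_cons (n : Node) (l : List Node) : nB (n :: l) = nB l + (if n.ty then 1 else 0) := by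
  unfold nB; rw [List.countP_cons]

lemma nB_children (n : Node) : nB (children n) = 1 := by
  unfold children
  split_ifs <;> simp [nB, childB, childA1, childA2, mkA]

lemma len_children (n : Node) : (children n).length + (if n.ty then 1 else 0) = 3 := by
  unfold children
  split_ifs <;> simp

lemma nB_flat (l : List Node) : nB (l.flatMap children) = l.length := by
  induction l with
  | nil => simp [nB]
  | cons n t ih => rw [List.flatMap_cons, nB_append, ih, nB_children, List.length_cons]; ring

lemma len_flat (l : List Node) : (l.flatMap children).length + nB l = 3 * l.length := by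
  induction l with
  | nil => simp [nB]
  | cons n t ih =>
    rw [List.flatMap_cons, List.length_append, nB_cons, List.length_cons]
    have := len_children n
    omega

lemma lay_counts (k : ℕ) : (lay k).length = 7 * Nat.fib (2 * k + 2) ∧ nB (lay k) = 7 * Nat.fib (2 * k) := by
  induction k with
  | zero => exact ⟨rfl, rfl⟩
  | succ k ih =>
    obtain ⟨h1, h2⟩ := ih
    have e1 := len_flat (lay k)
    have e2 := nB_flat (lay k)
    have f1 : Nat.fib (2 * k + 2) = Nat.fib (2 * k) + Nat.fib (2 * k + 1) := Nat.fib_add_two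
    have f2 : Nat.fib (2 * k + 3) = Nat.fib (2 * k + 1) + Nat.fib (2 * k + 2) := Nat.fib_add_two
    have f3 : Nat.fib (2 * k + 4) = Nat.fib (2 * k + 2) + Nat.fib (2 * k + 3) := Nat.fib_add_two
    have g1 : 2 * (k + 1) + 2 = 2 * k + 4 := by ring
    have g2 : 2 * (k + 1) = 2 * k + 2 := by ring
    show ((lay k).flatMap children).length = _ ∧ nB ((lay k).flatMap children) = _
    rw [g1, g2]
    constructor <;> omega

/-- weights -/
def wt (p q : ℤ) (l : List Node) : ℤ := p * nB l - q * ((l.length : ℤ) - nB l)

lemma wt_nil (p q : ℤ) : wt p q [] = 0 := by simp [wt, nB]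

lemma wt_cons (p q : ℤ) (n : Node) (l : List Node) :
    wt p q (n :: l) = (if n.ty then p else -q) + wt p q l := by
  unfold wt
  rw [nB_cons, List.length_cons]
  split_ifs <;> push_cast <;> ring

lemma prefix_next (p q p' q' : ℤ) (h1 : p' - q' = p) (h2 : p' - 2 * q' = -q) (hp' : 0 ≤ p')
    (hp : 0 ≤ p) (l : List Node) :
    ∀ s : ℤ, (∀ j, 0 ≤ s + wt p q (l.take j)) → ∀ j, 0 ≤ s + wt p' q' ((l.flatMap children).take j) := by
  induction l with
  | nil =>
    intro s hs j
    have := hs 0
    simpa [wt_nil] using this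
  | cons n t ih =>
    intro s hs j
    have h0 : 0 ≤ s := by simpa [wt_nil] using hs 0
    have ht : ∀ j, 0 ≤ (s + (if n.ty then p else -q)) + wt p q (t.take j) := by
      intro j
      have := hs (j + 1)
      rw [List.take_succ_cons, wt_cons] at this
      linarith
    have ih' := ih _ ht
    rw [List.flatMap_cons]
    cases hn : n.ty
    · have hc : children n = [childB n, childA1 n, childA2 n] := by simp [children, hn]
      rw [hc]
      simp only [hn, Bool.false_eq_true, if_false] at ih'
      match j with
      | 0 => simpa [wt_nil] using h0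
      | 1 =>
        simp [wt_cons, wt_nil, childB]
        linarith
      | 2 =>
        simp [wt_cons, wt_nil, childB, childA1, mkA]
        linarith
      | j + 3 =>
        have := ih' j
        simp only [List.cons_append, List.nil_append, List.take_succ_cons, wt_cons]
        simp only [childB, childA1, childA2, mkA, if_true, Bool.false_eq_true, if_false]
        linarith
    · have hc : children n = [childB n, childA1 n] := by simp [children, hn]
      rw [hc]
      simp only [hn, if_true] at ih'
      match j with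
      | 0 => simpa [wt_nil] using h0
      | 1 =>
        simp [wt_cons, wt_nil, childB]
        linarith
      | j + 2 =>
        have := ih' j
        simp only [List.cons_append, List.nil_append, List.take_succ_cons, wt_cons]
        simp only [childB, childA1, mkA, if_true, Bool.false_eq_true, if_false]
        linarith

lemma prefix_lay (k : ℕ) : ∀ j, 0 ≤ wt (Nat.fib (2 * k + 1)) (Nat.fib (2 * k)) ((lay k).take j) := by
  induction k with
  | zero =>
    intro j
    unfold wt
    simp
  | succ k ih =>
    have f1 : Nat.fib (2 * k + 2) = Nat.fib (2 * k) + Nat.fib (2 * k + 1) := Nat.fib_add_two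
    have f2 : Nat.fib (2 * k + 3) = Nat.fib (2 * k + 1) + Nat.fib (2 * k + 2) := Nat.fib_add_two
    have g1 : 2 * (k + 1) + 1 = 2 * k + 3 := by ring
    have g2 : 2 * (k + 1) = 2 * k + 2 := by ring
    have := prefix_next (Nat.fib (2 * k + 1)) (Nat.fib (2 * k)) (Nat.fib (2 * k + 3)) (Nat.fib (2 * k + 2))
      (by rw [f2]; push_cast; ring) (by rw [f2, f1]; push_cast; ring) (by positivity) (by positivity)
      (lay k) 0 (by intro j; rw [zero_add]; exact ih j)
    intro j
    rw [g1, g2]
    have h := this j
    rw [zero_add] at h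
    exact h

/-- the prefix inequality -/
lemma prefix_ineq (k j : ℕ) (hj : j ≤ (lay k).length) :
    j * Nat.fib (2 * k) ≤ nB ((lay k).take j) * Nat.fib (2 * k + 2) := by
  have h := prefix_lay k j
  unfold wt at h
  rw [List.length_take, min_eq_left hj] at h
  have f1 : Nat.fib (2 * k + 2) = Nat.fib (2 * k) + Nat.fib (2 * k + 1) := Nat.fib_add_two
  rw [f1]
  have : ((j * Nat.fib (2 * k) : ℕ) : ℤ) ≤
      ((nB ((lay k).take j) * (Nat.fib (2 * k) + Nat.fib (2 * k + 1)) : ℕ) : ℤ) := by
    push_cast
    linarith
  exact_mod_cast this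

/-! ### Sets of vertices -/

/-- vertices of the first `k` layers and the centre -/
noncomputable def base : ℕ → List W
  | 0 => [oW]
  | k + 1 => ((lay k).map pt).reverse ++ base k

/-- adding the first `j` vertices of the next layer -/
noncomputable def rl (k j : ℕ) : List W := (((lay k).take j).map pt).reverse ++ base k

lemma rl_zero (k : ℕ) : rl k 0 = base k := by simp [rl]

lemma rl_full (k : ℕ) : rl k (lay k).length = base (k + 1) := by simp [rl, base]

lemma rl_succ (k j : ℕ) (hj : j < (lay k).length) : rl k (j + 1) = pt (lay k)[j] :: rl k j := by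
  unfold rl
  rw [List.take_succ_eq_append_getElem hj, List.map_append, List.reverse_append]
  rfl

lemma base_mem {k : ℕ} {z : W} (hz : z ∈ base k) : z = oW ∨ ∃ j, j < k ∧ ∃ y ∈ lay j, z = pt y := by
  induction k with
  | zero => left; simpa [base] using hz
  | succ k ih =>
    simp only [base, List.mem_append, List.mem_reverse, List.mem_map] at hz
    rcases hz with ⟨y, hy, rfl⟩ | hz
    · right; exact ⟨k, by omega, y, hy, rfl⟩
    · rcases ih hz with h | ⟨j, hj, y, hy, h⟩
      · left; exact h
      · right; exact ⟨j, by omega, y, hy, h⟩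

lemma pt_not_mem_base {k : ℕ} {n : Node} (hn : n ∈ lay k) : pt n ∉ base k := by
  intro h
  rcases base_mem h with h | ⟨j, hj, y, hy, h⟩
  · exact pt_ne_o hn h
  · exact lay_disj j k hj n hn y hy h

lemma base_nodup (k : ℕ) : (base k).Nodup := by
  induction k with
  | zero => simp [base]
  | succ k ih =>
    unfold base
    rw [List.nodup_append']
    refine ⟨List.nodup_reverse.mpr (lay_OK k).nodup, ih, ?_⟩
    rw [List.disjoint_left]
    intro z hz hz'
    simp only [List.mem_reverse, List.mem_map] at hz
    obtain ⟨n, hn, rfl⟩ := hz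
    exact pt_not_mem_base hn hz'

lemma rl_nodup (k j : ℕ) : (rl k j).Nodup := by
  unfold rl
  rw [List.nodup_append']
  refine ⟨List.nodup_reverse.mpr ?_, base_nodup k, ?_⟩
  · rw [List.map_take]
    exact (List.take_sublist _ _).nodup (lay_OK k).nodup
  · rw [List.disjoint_left]
    intro z hz hz'
    simp only [List.mem_reverse, List.mem_map] at hz
    obtain ⟨n, hn, rfl⟩ := hz
    exact pt_not_mem_base (List.mem_of_mem_take hn) hz'

lemma rl_mem {k j : ℕ} {z : W} (hz : z ∈ rl k j) : z = oW ∨ ∃ i, ∃ y ∈ lay i, z = pt y := by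
  unfold rl at hz
  simp only [List.mem_append, List.mem_reverse, List.mem_map] at hz
  rcases hz with ⟨y, hy, rfl⟩ | hz
  · right; exact ⟨k, y, List.mem_of_mem_take hy, rfl⟩
  · rcases base_mem hz with h | ⟨j, hj, y, hy, h⟩
    · left; exact h
    · right; exact ⟨j, y, hy, h⟩

/-- vertex vectors -/
def VZ (z : W) : Prop :=
  ∃ X : Vec, Val X ∧ (∀ μ, Bf (cc μ) (X μ) (X μ) = 1) ∧ X lam = z ∧ Up z

lemma VZ_o : VZ oW := by
  refine ⟨oV, good_base.vx, fun μ => (good_base.tri μ).xx, rfl, ⟨(good_base.tri lam).xx, ?_⟩⟩
  simp [Bf, oW]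

lemma VZ_pt {k : ℕ} {n : Node} (hn : n ∈ lay k) : VZ (pt n) := by
  have g := (lay_OK k).good n hn
  exact ⟨n.v, g.vx, fun μ => (g.tri μ).xx, rfl, g.up_v ((lay_OK k).inv n hn)⟩

lemma rl_VZ {k j : ℕ} {z : W} (hz : z ∈ rl k j) : VZ z := by
  rcases rl_mem hz with rfl | ⟨i, y, hy, rfl⟩
  · exact VZ_o
  · exact VZ_pt hy

lemma VZ.up {z : W} (h : VZ z) : Up z := by
  obtain ⟨X, -, -, -, h⟩ := h
  exact h

lemma VZ.gap {x y : W} (hx : VZ x) (hy : VZ y) (hne : x ≠ y) : c0 ≤ Bf c0 x y := by
  obtain ⟨X, vX, uX, rfl, upx⟩ := hx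
  obtain ⟨Y, vY, uY, rfl, upy⟩ := hy
  rcases T37.gap vX vY uX uY (upx.one_le upy) with h | h
  · exact absurd (upx.eq_of upy h) hne
  · exact h

/-! ### Finite sets of points -/

section pairs

variable {α : Type*} [MetricSpace α]

/-- ordered touching pairs -/
noncomputable def E2 (d : ℝ) (P : Finset α) : ℕ :=
  ((P ×ˢ P).filter (fun p => dist p.1 p.2 = d)).card

lemma E2_insert (d : ℝ) (P : Finset α) (x : α) (hx : x ∉ P) :
    E2 d P + 2 * (P.filter (fun y => dist x y = d)).card ≤ E2 d (insert x P) := by
  set D := P.filter (fun y => dist x y = d) with hD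
  set A := (P ×ˢ P).filter (fun p => dist p.1 p.2 = d) with hA
  set B := D.image (fun y => (x, y)) with hB
  set C := D.image (fun y => (y, x)) with hC
  have cB : B.card = D.card := Finset.card_image_of_injective _ (fun a b h => (Prod.mk.inj h).2)
  have cC : C.card = D.card := Finset.card_image_of_injective _ (fun a b h => (Prod.mk.inj h).1)
  have dBC : Disjoint B C := by
    rw [Finset.disjoint_left]
    intro p hp hp'
    rw [hB, Finset.mem_image] at hp
    rw [hC, Finset.mem_image] at hp'
    obtain ⟨y, hy, rfl⟩ := hp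
    obtain ⟨z, hz, h⟩ := hp'
    have : y = x := (Prod.mk.inj h).2.symm
    subst this
    exact hx (Finset.mem_filter.mp hy).1
  have dA : Disjoint A (B ∪ C) := by
    rw [Finset.disjoint_left]
    intro p hp hp'
    rw [hA, Finset.mem_filter, Finset.mem_product] at hp
    rw [Finset.mem_union] at hp'
    rcases hp' with h | h
    · rw [hB, Finset.mem_image] at h
      obtain ⟨y, hy, rfl⟩ := h
      exact hx hp.1.1
    · rw [hC, Finset.mem_image] at h
      obtain ⟨y, hy, rfl⟩ := h
      exact hx hp.1.2
  have hsub : A ∪ (B ∪ C) ⊆ ((insert x P) ×ˢ (insert x P)).filter (fun p => dist p.1 p.2 = d) := by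
    intro p hp
    rw [Finset.mem_union, Finset.mem_union] at hp
    rw [Finset.mem_filter, Finset.mem_product]
    rcases hp with h | h | h
    · rw [hA, Finset.mem_filter, Finset.mem_product] at h
      exact ⟨⟨Finset.mem_insert_of_mem h.1.1, Finset.mem_insert_of_mem h.1.2⟩, h.2⟩
    · rw [hB, Finset.mem_image] at h
      obtain ⟨y, hy, rfl⟩ := h
      rw [hD, Finset.mem_filter] at hy
      exact ⟨⟨Finset.mem_insert_self _ _, Finset.mem_insert_of_mem hy.1⟩, hy.2⟩
    · rw [hC, Finset.mem_image] at h
      obtain ⟨y, hy, rfl⟩ := h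
      rw [hD, Finset.mem_filter] at hy
      exact ⟨⟨Finset.mem_insert_of_mem hy.1, Finset.mem_insert_self _ _⟩, by
        show dist y x = d
        rw [dist_comm]; exact hy.2⟩
  have := Finset.card_le_card hsub
  rw [Finset.card_union_of_disjoint dA, Finset.card_union_of_disjoint dBC, cB, cC] at this
  have e1 : E2 d P = A.card := rfl
  have e2 : E2 d (insert x P) =
    (((insert x P) ×ˢ (insert x P)).filter (fun p => dist p.1 p.2 = d)).card := by
    unfold E2; congr!
  rw [e1, e2]
  omega

end pairs

/-- the point set -/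
noncomputable def PS (k j : ℕ) : Finset UpperHalfPlane := ((rl k j).map toH).toFinset

lemma PS_card (k j : ℕ) : (PS k j).card = (rl k j).length := by
  unfold PS
  rw [List.toFinset_card_of_nodup]
  · simp
  · exact (List.nodup_map_iff_inj_on (rl_nodup k j)).mpr
      (fun x hx y hy h => toH_inj (rl_VZ hx).up (rl_VZ hy).up h)

lemma PS_mem {k j : ℕ} {z : W} (hz : z ∈ rl k j) : toH z ∈ PS k j := by
  unfold PS
  rw [List.mem_toFinset, List.mem_map]
  exact ⟨z, hz, rfl⟩

lemma PS_succ (k j : ℕ) (hj : j < (lay k).length) :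
    PS k (j + 1) = insert (toH (pt (lay k)[j])) (PS k j) := by
  unfold PS
  rw [rl_succ k j hj, List.map_cons, List.toFinset_cons]

lemma pt_not_mem_PS (k j : ℕ) (hj : j < (lay k).length) : toH (pt (lay k)[j]) ∉ PS k j := by
  intro h
  unfold PS at h
  rw [List.mem_toFinset, List.mem_map] at h
  obtain ⟨z, hz, hzt⟩ := h
  have hzt' : z = pt (lay k)[j] :=
    toH_inj (rl_VZ hz).up (VZ_pt (List.getElem_mem hj)).up hzt
  have hnd := rl_nodup k (j + 1)
  rw [rl_succ k j hj, List.nodup_cons] at hnd
  exact hnd.1 (hzt' ▸ hz)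

lemma dist_link {d : ℝ} (hd : 0 < d) (hd7 : Real.cosh d = c0) {n : Node} (g : n.G) (hi : Inv n)
    (t : Fin 7) : dist (toH (pt n)) (toH (n.L t lam)) = d := by
  have h1 : Real.cosh (dist (toH (pt n)) (toH (n.L t lam))) = Real.cosh d := by
    rw [cosh_dist_toH (x := pt n) (g.up_v hi) (g.up_L hi t), hd7]
    exact ((g.link t).tri lam).xy
  exact Real.cosh_injOn (Set.mem_Ici.mpr dist_nonneg) (Set.mem_Ici.mpr hd.le) h1

lemma deg_ge {d : ℝ} (hd : 0 < d) (hd7 : Real.cosh d = c0) {n : Node} (g : n.G) (hi : Inv n)
    (P : Finset UpperHalfPlane) (T : Finset (Fin 7)) (hT : ∀ t ∈ T, toH (n.L t lam) ∈ P) :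
    T.card ≤ (P.filter (fun y => dist (toH (pt n)) y = d)).card := by
  have h1 : (T.image (fun t => toH (n.L t lam))).card = T.card := by
    apply Finset.card_image_of_injOn
    intro a _ b _ hab
    by_contra hne
    exact L_inj g hne (toH_inj (g.up_L hi a) (g.up_L hi b) hab)
  rw [← h1]
  apply Finset.card_le_card
  intro y hy
  rw [Finset.mem_image] at hy
  obtain ⟨t, ht, rfl⟩ := hy
  rw [Finset.mem_filter]
  exact ⟨hT t ht, dist_link hd hd7 g hi t⟩

lemma base_par {k : ℕ} {n : Node} (hn : n ∈ lay k) {t : Fin 7} (ht : isPar n t) :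
    n.L t lam ∈ base k := by
  cases k with
  | zero =>
    rw [par_lay0 hn ht]
    simp [base, oV]
  | succ k =>
    obtain ⟨y, hy, h⟩ := par_lay hn ht
    rw [h]
    unfold base
    rw [List.mem_append, List.mem_reverse, List.mem_map]
    left
    exact ⟨y, hy, rfl⟩

lemma lay_len_ge (k : ℕ) : 7 ≤ (lay k).length := by
  rw [(lay_counts k).1]
  have : 0 < Nat.fib (2 * k + 2) := Nat.fib_pos.mpr (by omega)
  omega

/-- lower bound for the number of earlier neighbours -/
lemma deg_step {d : ℝ} (hd : 0 < d) (hd7 : Real.cosh d = c0) (k j : ℕ) (hj : j < (lay k).length) :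
    1 + (if (lay k)[j].ty then 1 else 0) + (if 0 < j then 1 else 0) +
      (if j + 1 = (lay k).length then 1 else 0) ≤
      ((PS k j).filter (fun y => dist (toH (pt (lay k)[j])) y = d)).card := by
  obtain ⟨h, tl, he, hc⟩ := chain_lay k
  set n := (lay k)[j] with hn
  have hmem : n ∈ lay k := List.getElem_mem hj
  have g := (lay_OK k).good n hmem
  have hi := (lay_OK k).inv n hmem
  rw [List.isChain_iff_getElem] at hc
  -- membership of parents
  have mpar : ∀ t, isPar n t → toH (n.L t lam) ∈ PS k j := fun t ht =>
    PS_mem (by unfold rl; rw [List.mem_append]; right; exact base_par hmem ht)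
  -- previous vertex
  have mprev : 0 < j → toH (n.L 0 lam) ∈ PS k j := by
    intro hj0
    have hc1 := hc (j - 1) (by simp; omega)
    rw [List.getElem_append_left (by omega), List.getElem_append_left (by omega)] at hc1
    have e1 : (lay k)[j - 1 + 1]'(by omega) = n := by
      rw [hn]; congr 1; omega
    rw [e1] at hc1
    apply PS_mem
    show n.u lam ∈ rl k j
    rw [hc1.2.1]
    unfold rl
    rw [List.mem_append, List.mem_reverse, List.mem_map]
    left
    refine ⟨(lay k)[j - 1]'(by omega), ?_, rfl⟩
    rw [List.mem_take_iff_getElem]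
    exact ⟨j - 1, by omega, rfl⟩
  -- first vertex of the layer
  have mlast : j + 1 = (lay k).length → toH (n.nv lam) ∈ PS k j := by
    intro hl
    have hlen := lay_len_ge k
    have hc1 := hc j (by simp; omega)
    rw [List.getElem_append_left hj] at hc1
    rw [List.getElem_append_right (by omega)] at hc1
    simp only [List.getElem_singleton] at hc1
    have : n.nv = h.v := hc1.1.symm
    rw [this]
    apply PS_mem
    unfold rl
    rw [List.mem_append, List.mem_reverse, List.mem_map]
    left
    refine ⟨h, ?_, rfl⟩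
    rw [List.mem_take_iff_getElem]
    refine ⟨0, by omega, ?_⟩
    simp [he]
  have hnv : n.nv = if n.ty then n.L 4 else n.L 5 := rfl
  -- assemble
  have key : ∀ T : Finset (Fin 7), (∀ t ∈ T, toH (n.L t lam) ∈ PS k j) →
      T.card ≤ ((PS k j).filter (fun y => dist (toH (pt n)) y = d)).card :=
    fun T hT => deg_ge hd hd7 g hi _ T hT
  have m6 := mpar 6 (Or.inl rfl)
  cases hty : n.ty
  · simp only [hty, Bool.false_eq_true, if_false] at hnv
    rw [hnv] at mlast
    simp only [Bool.false_eq_true, if_false]
    by_cases h0 : 0 < j <;> by_cases hl : j + 1 = (lay k).length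
    · rw [if_pos h0, if_pos hl]
      refine le_trans (by decide) (key {6, 0, 5} ?_)
      intro t ht
      simp only [Finset.mem_insert, Finset.mem_singleton] at ht
      rcases ht with rfl | rfl | rfl
      · exact m6
      · exact mprev h0
      · exact mlast hl
    · rw [if_pos h0, if_neg hl]
      refine le_trans (by decide) (key {6, 0} ?_)
      intro t ht
      simp only [Finset.mem_insert, Finset.mem_singleton] at ht
      rcases ht with rfl | rfl
      · exact m6
      · exact mprev h0
    · have := lay_len_ge k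
      omega
    · rw [if_neg h0, if_neg hl]
      refine le_trans (by decide) (key {6} ?_)
      intro t ht
      simp only [Finset.mem_singleton] at ht
      rcases ht with rfl
      exact m6
  · simp only [hty, if_true] at hnv
    rw [hnv] at mlast
    simp only [if_true]
    have m5 := mpar 5 (Or.inr ⟨hty, rfl⟩)
    by_cases h0 : 0 < j <;> by_cases hl : j + 1 = (lay k).length
    · rw [if_pos h0, if_pos hl]
      refine le_trans (by decide) (key {6, 5, 0, 4} ?_)
      intro t ht
      simp only [Finset.mem_insert, Finset.mem_singleton] at ht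
      rcases ht with rfl | rfl | rfl | rfl
      · exact m6
      · exact m5
      · exact mprev h0
      · exact mlast hl
    · rw [if_pos h0, if_neg hl]
      refine le_trans (by decide) (key {6, 5, 0} ?_)
      intro t ht
      simp only [Finset.mem_insert, Finset.mem_singleton] at ht
      rcases ht with rfl | rfl | rfl
      · exact m6
      · exact m5
      · exact mprev h0
    · have := lay_len_ge k
      omega
    · rw [if_neg h0, if_neg hl]
      refine le_trans (by decide) (key {6, 5} ?_)
      intro t ht
      simp only [Finset.mem_insert, Finset.mem_singleton] at ht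
      rcases ht with rfl | rfl
      · exact m6
      · exact m5

lemma nB_take_succ (k j : ℕ) (hj : j < (lay k).length) :
    nB ((lay k).take (j + 1)) = nB ((lay k).take j) + (if (lay k)[j].ty then 1 else 0) := by
  rw [List.take_succ_eq_append_getElem hj, nB_append, nB_cons]
  simp [nB]

/-- pairs inside a layer -/
lemma E2_layer {d : ℝ} (hd : 0 < d) (hd7 : Real.cosh d = c0) (k j : ℕ) (hj : j ≤ (lay k).length) :
    E2 d (PS k 0) + 2 * (j + nB ((lay k).take j) + (j - 1) + (if j = (lay k).length then 1 else 0)) ≤
      E2 d (PS k j) := by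
  induction j with
  | zero =>
    have := lay_len_ge k
    rw [if_neg (by omega)]
    simp [nB]
  | succ j ih =>
    have hj' : j < (lay k).length := hj
    have h1 := ih hj'.le
    rw [if_neg (by omega)] at h1
    have h2 := E2_insert d (PS k j) _ (pt_not_mem_PS k j hj')
    rw [← PS_succ k j hj'] at h2
    have h3 := deg_step hd hd7 k j hj'
    rw [nB_take_succ k j hj']
    by_cases h0 : 0 < j
    · rw [if_pos h0] at h3
      split_ifs at h3 ⊢ <;> omega
    · rw [if_neg h0] at h3
      split_ifs at h3 ⊢ <;> omega

lemma E2_base {d : ℝ} (hd : 0 < d) (hd7 : Real.cosh d = c0) (k : ℕ) :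
    2 * (21 * Nat.fib (2 * k + 1)) ≤ E2 d (PS k 0) + 2 * (7 * Nat.fib (2 * k) + 21) := by
  induction k with
  | zero => simp
  | succ k ih =>
    have h := E2_layer hd hd7 k (lay k).length le_rfl
    have hlen := lay_len_ge k
    rw [if_pos rfl, List.take_length] at h
    have e : PS k (lay k).length = PS (k + 1) 0 := by
      unfold PS; rw [rl_full, rl_zero]
    rw [e] at h
    obtain ⟨c1, c2⟩ := lay_counts k
    have f1 : Nat.fib (2 * k + 2) = Nat.fib (2 * k) + Nat.fib (2 * k + 1) := Nat.fib_add_two
    have f2 : Nat.fib (2 * k + 3) = Nat.fib (2 * k + 1) + Nat.fib (2 * k + 2) := Nat.fib_add_two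
    have g1 : 2 * (k + 1) + 1 = 2 * k + 3 := by ring
    have g2 : 2 * (k + 1) = 2 * k + 2 := by ring
    rw [g1, g2]
    omega

lemma rl_len (k j : ℕ) (hj : j ≤ (lay k).length) :
    (rl k j).length + 6 = 7 * Nat.fib (2 * k + 1) + j := by
  have hb : ∀ k, (base k).length + 6 = 7 * Nat.fib (2 * k + 1) := by
    intro k
    induction k with
    | zero => simp [base]
    | succ k ih =>
      obtain ⟨c1, c2⟩ := lay_counts k
      have f2 : Nat.fib (2 * k + 3) = Nat.fib (2 * k + 1) + Nat.fib (2 * k + 2) := Nat.fib_add_two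
      have g1 : 2 * (k + 1) + 1 = 2 * k + 3 := by ring
      rw [g1]
      simp only [base, List.length_append, List.length_reverse, List.length_map]
      omega
  have := hb k
  unfold rl
  simp only [List.length_append, List.length_reverse, List.length_map, List.length_take]
  omega

/-- lower bound for the number of touching pairs -/
lemma E2_total {d : ℝ} (hd : 0 < d) (hd7 : Real.cosh d = c0) (k j : ℕ) (hj : j < (lay k).length) :
    2 * (21 * Nat.fib (2 * k + 1)) + 2 * (j + nB ((lay k).take j) + (j - 1)) ≤
      E2 d (PS k j) + 2 * (7 * Nat.fib (2 * k) + 21) := by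
  have h1 := E2_base hd hd7 k
  have h2 := E2_layer hd hd7 k j hj.le
  rw [if_neg (by omega)] at h2
  omega

lemma PS_gap {d : ℝ} (hd : 0 < d) (hd7 : Real.cosh d = c0) (k j : ℕ) :
    ∀ x ∈ PS k j, ∀ y ∈ PS k j, x ≠ y → d ≤ dist x y := by
  intro x hx y hy hne
  unfold PS at hx hy
  rw [List.mem_toFinset, List.mem_map] at hx hy
  obtain ⟨a, ha, rfl⟩ := hx
  obtain ⟨b, hb, rfl⟩ := hy
  have hab : a ≠ b := fun h => hne (by rw [h])
  have va := rl_VZ ha
  have vb := rl_VZ hb
  have h := va.gap vb hab
  rw [← cosh_dist_toH va.up vb.up, ← hd7, Real.cosh_le_cosh, abs_of_pos hd,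
    abs_of_nonneg dist_nonneg] at h
  exact h

end Pool.Agent.H116.T37
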